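import Mathlib

set_option autoImplicit false

/-! # MP_0ea415_nt: Littlewood's conjecture, common factors of denominators, and folded numbers

If `n` is the least common multiple of `q` and `r`, `g` their greatest common divisor, then
`n ‖n x‖ ‖n y‖ ≤ (q r / g ^ 3) (q ‖q x‖) (r ‖r y‖)`. So good denominators `q` of `x` and `r` of `y`
for a counterexample `(x, y)` of Littlewood's conjecture satisfy `g ^ 3 ≤ K q r`. We apply this, and
variants in which `n` is a good denominator of `x` times a small factor, to explicit pairs.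

* Folded numbers: `∑ ± 1 / D k` with `D (k + 1) = t_k * (D k) ^ 2`, `1 ≤ t_k ≤ T`. They are badly
  approximable (Shallit, Kmosek, Koehler, Pethoe for particular sequences); the proof below is
  elementary: the lattice `m ≡ n P (mod D k)` has the symmetry `(n, m) ↦ (m, n)`, `P ↦ -P` (up to
  the last sign), and the lower bound for `|n m|` is carried from level to level.
* For a folded number `x` whose `D k` lie in a divisibility chain `E` and for every `y` with
  infinitely many good denominators in the same chain, `‖n x‖ ‖n y‖ ≤ n ^ (-κ)` infinitely often,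
  for every `κ < √2`. This holds in particular for two folded numbers whose `D k` are powers of one
  integer `b`.
* If `x` has infinitely many good denominators `b ^ m` and the nonzero digits of `y` in base `b` have
  gaps which tend to infinity (for instance `y = ∑ b ^ (-j ^ 2)`), then Littlewood's conjecture holds
  for `(x, y)`. The same is true if `y` has only `o (log m)` nonzero digits with index in `[m, 2 m)`;
  these `y` form a group which contains all `∑ c j / b ^ w j` with bounded integers `c j` and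
  lacunary `w`, in particular all sums of folded numbers. -/

namespace Pool.Agent.Results.MP_0ea415_nt.FoldedNumbers

open Filter Topology

/-- the distance of `x` to the nearest integer -/
noncomputable def nint (x : ℝ) : ℝ := |x - (round x : ℝ)|

theorem nint_nonneg (x : ℝ) : 0 ≤ nint x := abs_nonneg _

theorem nint_le (x : ℝ) (m : ℤ) : nint x ≤ |x - m| := round_le x m

theorem nint_mul_le (k : ℕ) (x : ℝ) : nint (k * x) ≤ k * nint x := by
  have h := nint_le (k * x) (k * round x)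
  refine h.trans (le_of_eq ?_)
  unfold nint
  push_cast
  rw [← mul_sub, abs_mul, Nat.abs_cast]

/-- the product for the least common multiple of two denominators -/
theorem lcm_bound (x y : ℝ) (q r : ℕ) (hq : 0 < q) (hr : 0 < r) :
    (Nat.lcm q r : ℝ) * nint (Nat.lcm q r * x) * nint (Nat.lcm q r * y) * (Nat.gcd q r : ℝ) ^ 3 ≤
      (q : ℝ) * r * (q * nint (q * x)) * (r * nint (r * y)) := by
  have hg : 0 < Nat.gcd q r := Nat.gcd_pos_of_pos_left _ hq
  obtain ⟨q', hq'⟩ := Nat.gcd_dvd_left q r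
  obtain ⟨r', hr'⟩ := Nat.gcd_dvd_right q r
  set g := Nat.gcd q r with hgdef
  set n := Nat.lcm q r with hndef
  have hn : n * g = q * r := by rw [mul_comm]; exact Nat.gcd_mul_lcm q r
  have hnq : n = r' * q := by
    have : n * g = (r' * q) * g := by
      rw [hn]
      conv_lhs => rw [hr']
      ring
    exact Nat.eq_of_mul_eq_mul_right hg this
  have hnr : n = q' * r := by
    have : n * g = (q' * r) * g := by
      rw [hn]
      conv_lhs => rw [hq']
      ring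
    exact Nat.eq_of_mul_eq_mul_right hg this
  have h1 : nint (n * x) ≤ r' * nint (q * x) := by
    have : (n : ℝ) * x = (r' : ℕ) * ((q : ℝ) * x) := by
      rw [hnq]; push_cast; ring
    rw [this]
    exact nint_mul_le _ _
  have h2 : nint (n * y) ≤ q' * nint (r * y) := by
    have : (n : ℝ) * y = (q' : ℕ) * ((r : ℝ) * y) := by
      rw [hnr]; push_cast; ring
    rw [this]
    exact nint_mul_le _ _
  have hnR : (n : ℝ) * g = q * r := by exact_mod_cast hn
  have hqR : (q : ℝ) = g * q' := by exact_mod_cast hq'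
  have hrR : (r : ℝ) = g * r' := by exact_mod_cast hr'
  have hx0 := nint_nonneg (n * x)
  have hy0 := nint_nonneg (n * y)
  calc (n : ℝ) * nint (n * x) * nint (n * y) * (g : ℝ) ^ 3
      ≤ (n : ℝ) * (r' * nint (q * x)) * (q' * nint (r * y)) * (g : ℝ) ^ 3 := by
        have := nint_nonneg (q * x)
        gcongr
    _ = (n * g) * (g * q') * (g * r') * nint (q * x) * nint (r * y) := by ring
    _ = (q : ℝ) * r * (q * nint (q * x)) * (r * nint (r * y)) := by
        rw [hnR, ← hqR, ← hrR]; ring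

/-- the pair `(x, y)` violates Littlewood's conjecture -/
def Counterexample (x y : ℝ) : Prop :=
  ∃ c : ℝ, 0 < c ∧ ∃ N : ℕ, ∀ n : ℕ, N ≤ n → c ≤ n * nint (n * x) * nint (n * y)

theorem gcd_law (x y : ℝ) (h : Counterexample x y) (A : ℝ) :
    ∃ K : ℝ, ∀ q r : ℕ, 0 < q → 0 < r → q * nint (q * x) ≤ A → r * nint (r * y) ≤ A →
      (Nat.gcd q r : ℝ) ^ 3 ≤ K * (q * r) := by
  obtain ⟨c, hc, N, hN⟩ := h
  refine ⟨max (N : ℝ) (A ^ 2 / c), fun q r hq hr hqA hrA => ?_⟩
  have hg : 0 < Nat.gcd q r := Nat.gcd_pos_of_pos_left _ hq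
  have hgq : (Nat.gcd q r : ℝ) ≤ q := by exact_mod_cast Nat.gcd_le_left r hq
  have hgr : (Nat.gcd q r : ℝ) ≤ r := by exact_mod_cast Nat.gcd_le_right q hr
  have hg0 : (0 : ℝ) < Nat.gcd q r := by exact_mod_cast hg
  have hq0 : (0 : ℝ) < q := by exact_mod_cast hq
  have hr0 : (0 : ℝ) < r := by exact_mod_cast hr
  rcases lt_or_ge (Nat.lcm q r) N with hl | hl
  · have hgN : (Nat.gcd q r : ℝ) ≤ N := by
      have h1 : Nat.gcd q r ≤ Nat.lcm q r :=
        (Nat.gcd_le_left r hq).trans (Nat.le_of_dvd (Nat.lcm_pos hq hr) (Nat.dvd_lcm_left q r))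
      exact_mod_cast (h1.trans hl.le)
    calc (Nat.gcd q r : ℝ) ^ 3 = Nat.gcd q r * (Nat.gcd q r * Nat.gcd q r) := by ring
      _ ≤ N * (q * r) := by gcongr
      _ ≤ max (N : ℝ) (A ^ 2 / c) * (q * r) := by gcongr; exact le_max_left _ _
  · have h1 := lcm_bound x y q r hq hr
    have h2 := hN _ hl
    have hx := nint_nonneg (q * x)
    have hy := nint_nonneg (r * y)
    have h3 : c * (Nat.gcd q r : ℝ) ^ 3 ≤ q * r * A ^ 2 := by
      calc c * (Nat.gcd q r : ℝ) ^ 3 ≤ _ := mul_le_mul_of_nonneg_right h2 (by positivity)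
        _ ≤ _ := h1
        _ = q * r * ((q * nint (q * x)) * (r * nint (r * y))) := by ring
        _ ≤ q * r * (A * A) := by
            have hA : 0 ≤ A := le_trans (by positivity) hqA
            gcongr
        _ = _ := by ring
    calc (Nat.gcd q r : ℝ) ^ 3 = (c * (Nat.gcd q r : ℝ) ^ 3) / c := by field_simp
      _ ≤ (q * r * A ^ 2) / c := by gcongr
      _ = A ^ 2 / c * (q * r) := by ring
      _ ≤ max (N : ℝ) (A ^ 2 / c) * (q * r) := by gcongr; exact le_max_right _ _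

/-- a divisibility chain: `D 0 ∣ D 1 ∣ D 2 ∣ …` -/
theorem chain_dvd (D : ℕ → ℕ) (hdvd : ∀ i, D i ∣ D (i + 1)) {i j : ℕ} (h : i ≤ j) : D i ∣ D j :=
  Nat.rel_of_forall_rel_succ_of_le (· ∣ ·) hdvd h

theorem nint_chain (D : ℕ → ℕ) (hD : ∀ i, 0 < D i) (hdvd : ∀ i, D i ∣ D (i + 1)) {i j : ℕ}
    (h : i ≤ j) (A x : ℝ) (hx : D i * nint (D i * x) ≤ A) :
    nint (D j * x) ≤ D j * (A / (D i : ℝ) ^ 2) := by
  obtain ⟨m, hm⟩ := chain_dvd D hdvd h
  have hi : (0 : ℝ) < D i := by exact_mod_cast hD i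
  have h1 : nint (D j * x) ≤ m * nint (D i * x) := by
    have : (D j : ℝ) * x = (m : ℕ) * ((D i : ℝ) * x) := by rw [hm]; push_cast; ring
    rw [this]; exact nint_mul_le _ _
  have h2 : nint (D i * x) ≤ A / D i := by rw [le_div_iff₀ hi]; linarith
  have h3 : (D j : ℝ) = D i * m := by exact_mod_cast hm
  calc nint (D j * x) ≤ m * nint (D i * x) := h1
    _ ≤ m * (A / D i) := by gcongr
    _ = D j * (A / (D i : ℝ) ^ 2) := by rw [h3]; field_simp

theorem chain_bound (D : ℕ → ℕ) (hD : ∀ i, 0 < D i) (hdvd : ∀ i, D i ∣ D (i + 1)) (A C : ℝ)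
    (hC : 1 ≤ C) (x y : ℝ)
    (hx : ∃ Z₀ : ℝ, ∀ Z : ℝ, Z₀ ≤ Z → ∃ i, Z ≤ D i ∧ (D i : ℝ) ≤ Z ^ C ∧
      D i * nint (D i * x) ≤ A)
    (hy : ∀ Z : ℝ, ∃ i, Z ≤ D i ∧ D i * nint (D i * y) ≤ A) (N : ℕ) :
    ∃ n : ℕ, N ≤ n ∧ 0 < n ∧
      nint (n * x) * nint (n * y) ≤ A ^ 2 * (n : ℝ) ^ (-(2 / Real.sqrt C)) := by
  obtain ⟨Z₀, hx⟩ := hx
  have hC0 : 0 < Real.sqrt C := Real.sqrt_pos.2 (by linarith)
  have hCC : Real.sqrt C * Real.sqrt C = C := Real.mul_self_sqrt (by linarith)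
  set W : ℝ := max (max Z₀ 1) N with hW
  have hW1 : 1 ≤ W := (le_max_right _ _).trans (le_max_left _ _)
  obtain ⟨j, hj1, hj2⟩ := hy (W ^ Real.sqrt C)
  have hDj : (0 : ℝ) < D j := by exact_mod_cast hD j
  set Z : ℝ := (D j : ℝ) ^ (1 / Real.sqrt C) with hZ
  have hZpos : 0 < Z := Real.rpow_pos_of_pos hDj _
  have hZj : Z ^ Real.sqrt C = D j := by
    rw [hZ, ← Real.rpow_mul hDj.le, one_div, inv_mul_cancel₀ hC0.ne', Real.rpow_one]
  have hWZ : W ≤ Z := by
    have h1 : (W ^ Real.sqrt C) ^ (1 / Real.sqrt C) ≤ Z :=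
      Real.rpow_le_rpow (by positivity) hj1 (by positivity)
    rwa [← Real.rpow_mul (by linarith), mul_one_div_cancel hC0.ne', Real.rpow_one] at h1
  obtain ⟨i, hi1, hi2, hi3⟩ := hx Z (((le_max_left _ _).trans (le_max_left _ _)).trans hWZ)
  have hDi : (0 : ℝ) < D i := by exact_mod_cast hD i
  have hNi : (N : ℝ) ≤ D i := ((le_max_right _ _).trans hWZ).trans hi1
  have hA : 0 ≤ A := le_trans (mul_nonneg hDi.le (nint_nonneg _)) hi3
  rcases le_total i j with hij | hij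
  · refine ⟨D j, ?_, hD j, ?_⟩
    · have : D i ≤ D j := Nat.le_of_dvd (hD j) (chain_dvd D hdvd hij)
      have h2 : N ≤ D i := by exact_mod_cast hNi
      omega
    · have h1 := nint_chain D hD hdvd hij A x hi3
      have h2 : nint (D j * y) ≤ A / D j := by rw [le_div_iff₀ hDj]; linarith
      have h3 : (D j : ℝ) ^ (-(2 / Real.sqrt C)) = (Z ^ 2)⁻¹ := by
        rw [Real.rpow_neg hDj.le, hZ, ← Real.rpow_natCast, ← Real.rpow_mul hDj.le]
        congr 2
        push_cast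
        ring
      rw [h3]
      calc nint (D j * x) * nint (D j * y) ≤ (D j * (A / (D i : ℝ) ^ 2)) * (A / D j) :=
            mul_le_mul h1 h2 (nint_nonneg _) (by positivity)
        _ = A ^ 2 * ((D i : ℝ) ^ 2)⁻¹ := by field_simp
        _ ≤ A ^ 2 * (Z ^ 2)⁻¹ := by gcongr
  · refine ⟨D i, by exact_mod_cast hNi, hD i, ?_⟩
    have h1 := nint_chain D hD hdvd hij A y hj2
    have h2 : nint (D i * x) ≤ A / D i := by rw [le_div_iff₀ hDi]; linarith
    have h4 : (D i : ℝ) ≤ (D j : ℝ) ^ Real.sqrt C := by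
      have : (Z : ℝ) ^ C = (D j : ℝ) ^ Real.sqrt C := by
        rw [← hZj, ← Real.rpow_mul hZpos.le, hCC]
      rw [← this]; exact hi2
    have h5 : ((D j : ℝ) ^ 2)⁻¹ ≤ (D i : ℝ) ^ (-(2 / Real.sqrt C)) := by
      rw [Real.rpow_neg hDi.le]
      apply inv_anti₀ (Real.rpow_pos_of_pos hDi _)
      calc (D i : ℝ) ^ (2 / Real.sqrt C) ≤ ((D j : ℝ) ^ Real.sqrt C) ^ (2 / Real.sqrt C) :=
            Real.rpow_le_rpow hDi.le h4 (by positivity)
        _ = (D j : ℝ) ^ (2 : ℝ) := by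
            rw [← Real.rpow_mul hDj.le]
            congr 1
            field_simp
        _ = (D j : ℝ) ^ 2 := by norm_cast
    calc nint (D i * x) * nint (D i * y) ≤ (A / D i) * (D i * (A / (D j : ℝ) ^ 2)) :=
          mul_le_mul h2 h1 (nint_nonneg _) (by positivity)
      _ = A ^ 2 * ((D j : ℝ) ^ 2)⁻¹ := by field_simp
      _ ≤ A ^ 2 * (D i : ℝ) ^ (-(2 / Real.sqrt C)) := by gcongr

/-- a folding sequence: `D (k + 1) = t * (D k) ^ 2` with `1 ≤ t ≤ T` -/
structure Folding (D : ℕ → ℕ) (T : ℕ) : Prop where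
  two_le : 2 ≤ D 0
  step : ∀ k, ∃ t : ℕ, 1 ≤ t ∧ t ≤ T ∧ D (k + 1) = t * D k ^ 2

/-- numerators of `± 1 / D 0 ± 1 / D 1 ± … ± 1 / D k` -/
def Num (D : ℕ → ℕ) : ℕ → ℤ → Prop
  | 0, P => P = 1 ∨ P = -1
  | k + 1, P => ∃ P0 e t : ℤ, Num D k P0 ∧ (e = 1 ∨ e = -1) ∧ (D (k + 1) : ℤ) = t * (D k : ℤ) ^ 2 ∧
      P = P0 * (t * (D k : ℤ)) + e

theorem Num.neg {D : ℕ → ℕ} : ∀ {k : ℕ} {P : ℤ}, Num D k P → Num D k (-P)
  | 0, P, h => by
      rcases h with h | h
      · right; omega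
      · left; omega
  | k + 1, P, ⟨P0, e, t, h0, he, ht, hP⟩ => by
      refine ⟨-P0, -e, t, Num.neg h0, ?_, ht, ?_⟩
      · rcases he with h | h
        · right; omega
        · left; omega
      · rw [hP]; ring

theorem Num.coprime {D : ℕ → ℕ} {k : ℕ} {P : ℤ} (h : Num D k P) : IsCoprime P (D k : ℤ) := by
  cases k with
  | zero =>
      rcases h with h | h
      · rw [h]; exact isCoprime_one_left
      · rw [h]; exact isCoprime_one_left.neg_left
  | succ k =>
      obtain ⟨P0, e, t, _, he, ht, hP⟩ := h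
      have h1 : IsCoprime P (t * (D k : ℤ)) := by
        rw [hP]
        rcases he with h | h
        · rw [h]; exact ⟨1, -P0, by ring⟩
        · rw [h]; exact ⟨-1, P0, by ring⟩
      have h2 : (D (k + 1) : ℤ) ∣ (t * (D k : ℤ)) ^ 2 := ⟨t, by rw [ht]; ring⟩
      exact (h1.pow_right (n := 2)).of_isCoprime_of_dvd_right h2

theorem arith (c q N M M0 e t : ℝ) (hc0 : 0 < c) (hc : c ≤ 1 / 1024) (hq : 1 ≤ q) (he0 : 0 < e)
    (he1 : e ≤ 1) (ht : 1 ≤ t) (hN : 1 ≤ N) (hM0 : 1 ≤ M0) (hNM : N ≤ M)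
    (hM : t * q * M0 - N ≤ M)
    (hint : N ≤ M0 ∨ M0 + 1 ≤ N)
    (hIH : c * q * (1 + (1 + e) / (2 * min N M0)) ≤ N * M0) (hqe : 1 ≤ q * e ^ 2) :
    c * (t * q ^ 2) * (1 + (1 + e / 2) / (2 * N)) ≤ N * M := by
  have hN0 : 0 < N := by linarith
  have hM00 : 0 < M0 := by linarith
  have hq0 : 0 < q := by linarith
  have ht0 : 0 < t := by linarith
  have htarget : c * (t * q ^ 2) * (1 + (1 + e / 2) / (2 * N)) ≤ 2 * c * (t * q ^ 2) := by
    have h1 : (1 + e / 2) / (2 * N) ≤ 1 := by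
      rw [div_le_one (by positivity)]; linarith
    have h2 : 0 ≤ c * (t * q ^ 2) := by positivity
    nlinarith
  rcases le_or_gt (2 * c * (t * q ^ 2)) (N ^ 2) with hA | hA
  · have : N ^ 2 ≤ N * M := by nlinarith
    linarith
  have hNMq : t * (q * (N * M0)) - N ^ 2 ≤ N * M := by
    have := mul_le_mul_of_nonneg_left hM hN0.le
    nlinarith
  rcases le_or_gt (4 * c * q) (N * M0) with hB | hB
  · have : t * (q * (4 * c * q)) ≤ t * (q * (N * M0)) := by gcongr
    nlinarith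
  suffices hsuf : c * q ^ 2 * (1 + (1 + e / 2) / (2 * N)) ≤ q * (N * M0) - N ^ 2 by
    have h1 := mul_le_mul_of_nonneg_left hsuf ht0.le
    have h2 : N ^ 2 ≤ t * N ^ 2 := by nlinarith [sq_nonneg N]
    calc c * (t * q ^ 2) * (1 + (1 + e / 2) / (2 * N))
        = t * (c * q ^ 2 * (1 + (1 + e / 2) / (2 * N))) := by ring
      _ ≤ t * (q * (N * M0) - N ^ 2) := h1
      _ = t * (q * (N * M0)) - t * N ^ 2 := by ring
      _ ≤ t * (q * (N * M0)) - N ^ 2 := by linarith
      _ ≤ N * M := hNMq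
  rcases hint with hcase | hcase
  · rw [min_eq_left hcase] at hIH
    have h1 : N ^ 2 ≤ N * M0 := by nlinarith
    have h2 : (16 * N) ^ 2 < q := by nlinarith
    have h3 : q ≤ (e * q) ^ 2 := by nlinarith
    have h4 : 16 * N < e * q := by
      have : (16 * N) ^ 2 < (e * q) ^ 2 := by linarith
      exact lt_of_pow_lt_pow_left₀ 2 (by positivity) this
    have h5 : 4 * N ^ 3 ≤ c * e * q ^ 2 := by
      have h6 : 4 * N ^ 3 ≤ 16 * N * (c * q) := by nlinarith
      have h7 : 16 * N * (c * q) ≤ e * q * (c * q) := by gcongr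
      nlinarith
    have h8 : c * q ^ 2 * (1 + (1 + e) / (2 * N)) - N ^ 2 ≤ q * (N * M0) - N ^ 2 := by
      have := mul_le_mul_of_nonneg_left hIH hq0.le
      nlinarith
    have h9 : N ^ 2 ≤ c * q ^ 2 * (e / (4 * N)) := by
      rw [← mul_div_assoc, le_div_iff₀ (by positivity)]
      nlinarith
    have h10 : c * q ^ 2 * (1 + (1 + e / 2) / (2 * N)) =
        c * q ^ 2 * (1 + (1 + e) / (2 * N)) - c * q ^ 2 * (e / (4 * N)) := by
      field_simp
      ring
    rw [h10]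
    linarith
  · rw [min_eq_right (by linarith)] at hIH
    have h8 : c * q ^ 2 * (1 + (1 + e) / (2 * M0)) - N ^ 2 ≤ q * (N * M0) - N ^ 2 := by
      have := mul_le_mul_of_nonneg_left hIH hq0.le
      nlinarith
    have h1 : N < 4 * c * q / M0 := by rw [lt_div_iff₀ hM00]; exact hB
    have h2 : N ^ 2 ≤ (4 * c * q / M0) ^ 2 := by gcongr
    have h3 : (4 * c * q / M0) ^ 2 = c * q ^ 2 * (16 * c / M0 ^ 2) := by
      field_simp
      ring
    have h4 : 16 * c / M0 ^ 2 ≤ 1 / (4 * M0 ^ 2) := by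
      rw [div_le_div_iff₀ (by positivity) (by positivity)]
      nlinarith [sq_nonneg M0, mul_pos hM00 hM00]
    have h5 : (1 + (1 + e / 2) / (2 * N)) + 1 / (4 * M0 ^ 2) ≤ 1 + (1 + e) / (2 * M0) := by
      have h6 : (1 + e / 2) / (2 * N) ≤ (1 + e / 2) / (2 * (M0 + 1)) := by gcongr
      have h7 : (1 + e / 2) / (2 * (M0 + 1)) + 1 / (4 * M0 ^ 2) ≤ (1 + e / 2) / (2 * M0) := by
        rw [div_add_div _ _ (by positivity) (by positivity),
          div_le_div_iff₀ (by positivity) (by positivity)]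
        have : 0 ≤ e * M0 := by positivity
        nlinarith [mul_pos hM00 hM00, mul_pos (mul_pos hM00 hM00) hM00,
          mul_nonneg he0.le (mul_pos hM00 hM00).le,
          mul_nonneg (mul_nonneg he0.le hM00.le) (sub_nonneg.2 hM0),
          mul_nonneg (mul_pos hM00 hM00).le (sub_nonneg.2 hM0)]
      have h9 : (1 + e / 2) / (2 * M0) ≤ (1 + e) / (2 * M0) := by gcongr; linarith
      linarith
    have h10 : 0 < c * q ^ 2 := by positivity
    have h11 : c * q ^ 2 * (16 * c / M0 ^ 2) ≤ c * q ^ 2 * (1 / (4 * M0 ^ 2)) := by gcongr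
    have h12 := mul_le_mul_of_nonneg_left h5 h10.le
    nlinarith

theorem Folding.pos {D : ℕ → ℕ} {T : ℕ} (h : Folding D T) : ∀ k, 0 < D k
  | 0 => by have := h.two_le; omega
  | k + 1 => by
      obtain ⟨t, ht, _, hD⟩ := h.step k
      have := h.pos k
      rw [hD]; positivity

theorem Folding.pow_le {D : ℕ → ℕ} {T : ℕ} (h : Folding D T) : ∀ k, 2 ^ (2 ^ k) ≤ D k
  | 0 => by have := h.two_le; simpa using this
  | k + 1 => by
      obtain ⟨t, ht, _, hD⟩ := h.step k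
      have h1 := h.pow_le k
      rw [hD]
      calc 2 ^ (2 ^ (k + 1)) = (2 ^ (2 ^ k)) ^ 2 := by rw [← pow_mul, pow_succ]
        _ ≤ D k ^ 2 := Nat.pow_le_pow_left h1 2
        _ ≤ t * D k ^ 2 := Nat.le_mul_of_pos_left _ ht

theorem Folding.four_pow_le {D : ℕ → ℕ} {T : ℕ} (h : Folding D T) (k : ℕ) :
    (4 : ℝ) ^ k ≤ D k := by
  have h1 : 2 * k ≤ 2 ^ k := by
    induction k with
    | zero => simp
    | succ k ih =>
        rcases Nat.eq_zero_or_pos k with rfl | hk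
        · norm_num
        · rw [pow_succ]
          have : k + 1 ≤ 2 * k := by omega
          have : 2 ≤ 2 ^ k := by
            calc 2 = 2 ^ 1 := by norm_num
              _ ≤ 2 ^ k := Nat.pow_le_pow_right (by norm_num) hk
          omega
  have h2 : 4 ^ k ≤ D k := by
    calc 4 ^ k = 2 ^ (2 * k) := by rw [pow_mul]; norm_num
      _ ≤ 2 ^ (2 ^ k) := Nat.pow_le_pow_right (by norm_num) h1
      _ ≤ D k := h.pow_le k
  exact_mod_cast h2

theorem Folding.mul_pow_le {D : ℕ → ℕ} {T : ℕ} (h : Folding D T) (k : ℕ) :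
    ∀ j, D k * 2 ^ j ≤ D (j + k)
  | 0 => by simp
  | j + 1 => by
      obtain ⟨t, ht, _, hD⟩ := h.step (j + k)
      have h1 := h.mul_pow_le k j
      have h2 : 2 ≤ D (j + k) := by
        have h3 := h.pow_le (j + k)
        have h4 : 2 ^ 1 ≤ 2 ^ (2 ^ (j + k)) := Nat.pow_le_pow_right (by norm_num) Nat.one_le_two_pow
        omega
      have h5 : j + 1 + k = (j + k) + 1 := by ring
      rw [h5, hD]
      calc D k * 2 ^ (j + 1) = (D k * 2 ^ j) * 2 := by ring
        _ ≤ D (j + k) * D (j + k) := Nat.mul_le_mul h1 h2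
        _ = 1 * D (j + k) ^ 2 := by ring
        _ ≤ t * D (j + k) ^ 2 := by gcongr

/-- the lower bound for products in the lattice `m ≡ n P (mod D k)` -/
def Low (D : ℕ → ℕ) (c : ℝ) (k : ℕ) (n m : ℤ) : Prop :=
  c * (D k : ℝ) * (1 + (1 + (1 / 2 : ℝ) ^ k) / (2 * min |(n : ℝ)| |(m : ℝ)|)) ≤
    |(n : ℝ)| * |(m : ℝ)|

theorem Low.swap {D : ℕ → ℕ} {c : ℝ} {k : ℕ} {n m : ℤ} (h : Low D c k n m) : Low D c k m n := by
  unfold Low at *
  rw [min_comm, mul_comm |(m : ℝ)|]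
  exact h

theorem one_le_abs_cast {n : ℤ} (h : n ≠ 0) : (1 : ℝ) ≤ |(n : ℝ)| := by
  have : (1 : ℤ) ≤ |n| := Int.one_le_abs h
  exact_mod_cast this

theorem key (D : ℕ → ℕ) (T : ℕ) (hD : Folding D T) (c : ℝ) (hc0 : 0 < c) (hc : c ≤ 1 / 1024)
    (hcD : 2 * c * D 0 ≤ 1) (hcT : 2 * c * T ≤ 1)
    (k : ℕ) : ∀ P, Num D k P → ∀ n m : ℤ, n ≠ 0 → m ≠ 0 → (D k : ℤ) ∣ m - n * P →
      Low D c k n m := by
  induction k with
  | zero =>
      intro P _ n m hn hm _
      unfold Low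
      have h1 := one_le_abs_cast hn
      have h2 := one_le_abs_cast hm
      have h3 : 1 ≤ min |(n : ℝ)| |(m : ℝ)| := le_min h1 h2
      have h4 : (1 + (1 / 2 : ℝ) ^ 0) / (2 * min |(n : ℝ)| |(m : ℝ)|) ≤ 1 := by
        rw [div_le_one (by positivity)]
        norm_num
        exact ⟨h1, h2⟩
      have h5 : c * (D 0 : ℝ) * (1 + (1 + (1 / 2 : ℝ) ^ 0) /
          (2 * min |(n : ℝ)| |(m : ℝ)|)) ≤ c * (D 0 : ℝ) * 2 := by
        gcongr
        linarith
      have h7 : 1 ≤ |(n : ℝ)| * |(m : ℝ)| := by nlinarith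
      linarith
  | succ k ih =>
      have hDk0 : (0 : ℝ) < D k := by exact_mod_cast hD.pos k
      have half : ∀ P, Num D (k + 1) P → ∀ n m : ℤ, n ≠ 0 → m ≠ 0 →
          (D (k + 1) : ℤ) ∣ m - n * P → |(n : ℝ)| ≤ |(m : ℝ)| → Low D c (k + 1) n m := by
        rintro P ⟨P0, e, t, h0, he, ht, hP⟩ n m hn hm ⟨a, ha⟩ hnm
        obtain ⟨t', ht'1, ht'T, ht'D⟩ := hD.step k
        have htt : t = t' := by
          have h1 : (D (k + 1) : ℤ) = t' * (D k : ℤ) ^ 2 := by exact_mod_cast ht'D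
          have h2 : (D k : ℤ) ^ 2 ≠ 0 := by
            have := hD.pos k
            positivity
          rw [ht] at h1
          exact mul_right_cancel₀ h2 h1
        have htR : (t : ℝ) = t' := by rw [htt]; simp
        have ht1 : (1 : ℝ) ≤ t := by rw [htR]; exact_mod_cast ht'1
        have htT : (t : ℝ) ≤ T := by rw [htR]; exact_mod_cast ht'T
        set q : ℤ := (D k : ℤ) with hq
        have hqqR : (D (k + 1) : ℝ) = t * (D k : ℝ) ^ 2 := by
          rw [htR]; exact_mod_cast ht'D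
        have hqR : ((q : ℤ) : ℝ) = (D k : ℝ) := by rw [hq]; simp
        set m0 : ℤ := n * P0 + a * q with hm0
        have hm' : m = t * q * m0 + e * n := by
          have : m = n * P + t * q ^ 2 * a := by rw [← ht]; linarith
          rw [this, hP, hm0]; ring
        have h4k := hD.four_pow_le k
        have hq1 : (1 : ℝ) ≤ (D k : ℝ) := by
          have : (1 : ℝ) ≤ 4 ^ k := one_le_pow₀ (by norm_num)
          linarith
        have hn1 := one_le_abs_cast hn
        rcases eq_or_ne m0 0 with hz | hz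
        · -- the multiples of `q`
          have h1 : q ∣ n := by
            have h2 : q ∣ n * P0 := ⟨-a, by
              have : n * P0 = -(a * q) := by rw [hm0] at hz; linarith
              rw [this]; ring⟩
            exact (h0.coprime.symm).dvd_of_dvd_mul_right h2
          have h3 : q ≤ |n| := Int.le_of_dvd (abs_pos.2 hn) ((dvd_abs _ _).2 h1)
          have h4 : (D k : ℝ) ≤ |(n : ℝ)| := by
            rw [← hqR]; exact_mod_cast h3
          unfold Low
          have h5 : 1 ≤ min |(n : ℝ)| |(m : ℝ)| := le_min hn1 (hn1.trans hnm)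
          have h6 : (1 + (1 / 2 : ℝ) ^ (k + 1)) / (2 * min |(n : ℝ)| |(m : ℝ)|) ≤ 1 := by
            rw [div_le_one (by positivity)]
            have : (1 / 2 : ℝ) ^ (k + 1) ≤ 1 := pow_le_one₀ (by norm_num) (by norm_num)
            linarith
          rw [hqqR]
          have h7 : (D k : ℝ) ^ 2 ≤ |(n : ℝ)| * |(m : ℝ)| := by
            rw [pow_two]; gcongr; exact h4.trans hnm
          have h8 : 0 < (D k : ℝ) ^ 2 := by positivity
          have h9 : c * t * 2 ≤ 1 := by nlinarith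
          calc c * (t * (D k : ℝ) ^ 2) * (1 + (1 + (1 / 2 : ℝ) ^ (k + 1)) /
                (2 * min |(n : ℝ)| |(m : ℝ)|))
              ≤ c * (t * (D k : ℝ) ^ 2) * 2 := by gcongr; linarith
            _ = (c * t * 2) * (D k : ℝ) ^ 2 := by ring
            _ ≤ 1 * (D k : ℝ) ^ 2 := by gcongr
            _ = (D k : ℝ) ^ 2 := one_mul _
            _ ≤ _ := h7
        · have hih := ih P0 h0 n m0 hn hz ⟨a, by rw [hm0]; ring⟩
          unfold Low at hih
          have hm01 := one_le_abs_cast hz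
          have hM : t * (D k : ℝ) * |(m0 : ℝ)| - |(n : ℝ)| ≤ |(m : ℝ)| := by
            have h1 : (m : ℝ) = t * (D k : ℝ) * m0 + e * n := by
              rw [← hqR]; exact_mod_cast hm'
            have h2 : |(e : ℝ) * n| = |(n : ℝ)| := by
              rcases he with h | h <;> rw [h] <;> simp
            have h3 : |t * (D k : ℝ) * m0| = t * (D k : ℝ) * |(m0 : ℝ)| := by
              rw [abs_mul, abs_of_pos (by positivity)]
            rw [h1, ← h3, ← h2]
            have := abs_sub_abs_le_abs_sub (t * (D k : ℝ) * m0) (-((e : ℝ) * n))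
            rw [abs_neg, sub_neg_eq_add] at this
            exact this
          have hint : |(n : ℝ)| ≤ |(m0 : ℝ)| ∨ |(m0 : ℝ)| + 1 ≤ |(n : ℝ)| := by
            rcases le_or_gt |n| |m0| with h | h
            · left; exact_mod_cast h
            · right
              have : |m0| + 1 ≤ |n| := h
              exact_mod_cast this
          have hqe : 1 ≤ (D k : ℝ) * ((1 / 2 : ℝ) ^ k) ^ 2 := by
            have h1 : ((1 / 2 : ℝ) ^ k) ^ 2 = ((4 : ℝ) ^ k)⁻¹ := by
              rw [← pow_mul, mul_comm k 2, pow_mul, ← inv_pow]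
              norm_num
            rw [h1, ← div_eq_mul_inv, le_div_iff₀ (by positivity)]
            linarith
          have := arith c (D k : ℝ) |(n : ℝ)| |(m : ℝ)| |(m0 : ℝ)| ((1 / 2 : ℝ) ^ k) t
            hc0 hc hq1 (by positivity) (pow_le_one₀ (by norm_num) (by norm_num)) ht1 hn1 hm01 hnm
            hM hint hih hqe
          unfold Low
          have hpow : (1 / 2 : ℝ) ^ (k + 1) = (1 / 2 : ℝ) ^ k / 2 := by rw [pow_succ]; ring
          rw [hqqR, min_eq_left hnm, hpow]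
          exact this
      intro P hP n m hn hm hdvd
      rcases le_total |(n : ℝ)| |(m : ℝ)| with hnm | hnm
      · exact half P hP n m hn hm hdvd hnm
      · refine Low.swap ?_
        obtain ⟨P0, e, t, h0, he, ht, hP'⟩ := hP
        refine half (-P0 * (t * (D k : ℤ)) + e) ⟨-P0, e, t, h0.neg, he, ht, rfl⟩ m n hm hn ?_ hnm
        obtain ⟨a, ha⟩ := hdvd
        rw [ht] at ha ⊢
        set q : ℤ := (D k : ℤ)
        have hm' : m = n * (P0 * (t * q) + e) + t * q ^ 2 * a := by rw [← hP']; linarith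
        have hee : e * e = 1 := by rcases he with h | h <;> rw [h] <;> norm_num
        refine ⟨n * P0 ^ 2 * t - a * (e - P0 * (t * q)), ?_⟩
        rw [hm']
        linear_combination (-n) * hee

/-- the folded number `ε 0 / D 0 + ε 1 / D 1 + ε 2 / D 2 + …` -/
noncomputable def folded (D : ℕ → ℕ) (ε : ℕ → ℤ) : ℝ := ∑' k, (ε k : ℝ) / (D k : ℝ)

/-- all terms are `1` or `-1` -/
def Signs (ε : ℕ → ℤ) : Prop := ∀ k, ε k = 1 ∨ ε k = -1

theorem term_le {D : ℕ → ℕ} {T : ℕ} (hD : Folding D T) {ε : ℕ → ℤ} (hε : Signs ε) (k j : ℕ) :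
    ‖(ε (j + k) : ℝ) / (D (j + k) : ℝ)‖ ≤ ((D k : ℝ))⁻¹ * (1 / 2) ^ j := by
  have h1 : |(ε (j + k) : ℝ)| = 1 := by rcases hε (j + k) with h | h <;> rw [h] <;> simp
  have hDk : (0 : ℝ) < D k := by exact_mod_cast hD.pos k
  have hDj : (0 : ℝ) < D (j + k) := by exact_mod_cast hD.pos (j + k)
  rw [Real.norm_eq_abs, abs_div, h1, abs_of_pos hDj]
  have h2 : (D k : ℝ) * 2 ^ j ≤ (D (j + k) : ℝ) := by exact_mod_cast hD.mul_pow_le k j
  rw [one_div, one_div, inv_pow, ← mul_inv]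
  exact inv_anti₀ (by positivity) h2

theorem geo_sum (a : ℝ) : HasSum (fun j : ℕ => a * (1 / 2 : ℝ) ^ j) (a * 2) := by
  have := (hasSum_geometric_of_lt_one (r := (1 / 2 : ℝ)) (by norm_num) (by norm_num)).mul_left a
  have h2 : (1 - 1 / 2 : ℝ)⁻¹ = 2 := by norm_num
  rw [h2] at this
  exact this

theorem summable_folded {D : ℕ → ℕ} {T : ℕ} (hD : Folding D T) {ε : ℕ → ℤ} (hε : Signs ε) :
    Summable (fun k => (ε k : ℝ) / (D k : ℝ)) := by
  refine Summable.of_norm_bounded (geo_sum (((D 0 : ℝ))⁻¹)).summable (fun j => ?_)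
  exact term_le hD hε 0 j

/-- the numerators -/
def num (D : ℕ → ℕ) (ε : ℕ → ℤ) : ℕ → ℤ
  | 0 => ε 0
  | k + 1 => num D ε k * ((D (k + 1) : ℤ) / (D k : ℤ)) + ε (k + 1)

theorem Folding.quot {D : ℕ → ℕ} {T : ℕ} (hD : Folding D T) (k : ℕ) :
    ∃ t : ℤ, (D (k + 1) : ℤ) = t * (D k : ℤ) ^ 2 ∧ (D (k + 1) : ℤ) / (D k : ℤ) = t * (D k : ℤ) := by
  obtain ⟨t, _, _, ht⟩ := hD.step k
  have h0 : (D k : ℤ) ≠ 0 := by have := hD.pos k; positivity
  have h1 : (D (k + 1) : ℤ) = (t : ℤ) * (D k : ℤ) ^ 2 := by exact_mod_cast ht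
  refine ⟨t, h1, ?_⟩
  rw [h1, pow_two, ← mul_assoc]
  exact Int.mul_ediv_cancel _ h0

theorem num_Num {D : ℕ → ℕ} {T : ℕ} (hD : Folding D T) {ε : ℕ → ℤ} (hε : Signs ε) :
    ∀ k, Num D k (num D ε k)
  | 0 => hε 0
  | k + 1 => by
      obtain ⟨t, ht1, ht2⟩ := hD.quot k
      exact ⟨num D ε k, ε (k + 1), t, num_Num hD hε k, hε (k + 1), ht1, by simp only [num]; rw [ht2]⟩

theorem sum_eq {D : ℕ → ℕ} {T : ℕ} (hD : Folding D T) (ε : ℕ → ℤ) (k : ℕ) :
    ∑ j ∈ Finset.range (k + 1), (ε j : ℝ) / (D j : ℝ) = num D ε k / (D k : ℝ) := by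
  induction k with
  | zero => simp [num]
  | succ k ih =>
      obtain ⟨t, ht1, ht2⟩ := hD.quot k
      have h0 : (D k : ℝ) ≠ 0 := by have := hD.pos k; positivity
      have h1 : (D (k + 1) : ℝ) ≠ 0 := by have := hD.pos (k + 1); positivity
      have ht3 : (D (k + 1) : ℝ) = t * (D k : ℝ) ^ 2 := by exact_mod_cast ht1
      rw [Finset.sum_range_succ, ih]
      simp only [num]
      rw [ht2]
      push_cast
      rw [div_add_div _ _ h0 h1, div_eq_div_iff (mul_ne_zero h0 h1) h1]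
      rw [ht3]
      ring

theorem folded_sub {D : ℕ → ℕ} {T : ℕ} (hD : Folding D T) {ε : ℕ → ℤ} (hε : Signs ε) (k : ℕ) :
    |folded D ε - num D ε k / (D k : ℝ)| ≤ 2 / (D k : ℝ) ^ 2 := by
  have hs := summable_folded hD hε
  have h1 : folded D ε - num D ε k / (D k : ℝ) =
      ∑' j, (ε (j + (k + 1)) : ℝ) / (D (j + (k + 1)) : ℝ) := by
    rw [← sum_eq hD ε k]
    have := hs.sum_add_tsum_nat_add (k + 1)
    unfold folded
    linarith
  rw [h1, ← Real.norm_eq_abs]
  have h2 := tsum_of_norm_bounded (geo_sum (((D (k + 1) : ℝ))⁻¹))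
    (fun j => term_le hD hε (k + 1) j)
  refine h2.trans ?_
  have hk : (0 : ℝ) < D k := by exact_mod_cast hD.pos k
  have h3 : (D k : ℝ) ^ 2 ≤ (D (k + 1) : ℝ) := by
    obtain ⟨t, ht, _, hDt⟩ := hD.step k
    have : D k ^ 2 ≤ D (k + 1) := by rw [hDt]; exact Nat.le_mul_of_pos_left _ ht
    exact_mod_cast this
  calc ((D (k + 1) : ℝ))⁻¹ * 2 ≤ ((D k : ℝ) ^ 2)⁻¹ * 2 := by gcongr
    _ = 2 / (D k : ℝ) ^ 2 := by ring

theorem nint_folded {D : ℕ → ℕ} {T : ℕ} (hD : Folding D T) {ε : ℕ → ℤ} (hε : Signs ε) (k : ℕ) :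
    (D k : ℝ) * nint ((D k : ℝ) * folded D ε) ≤ 2 := by
  have hq : (0 : ℝ) < (D k : ℝ) := by exact_mod_cast hD.pos k
  have h1 := nint_le ((D k : ℝ) * folded D ε) (num D ε k)
  have h2 : (D k : ℝ) * folded D ε - num D ε k =
      (D k : ℝ) * (folded D ε - num D ε k / (D k : ℝ)) := by field_simp
  rw [h2, abs_mul, abs_of_pos hq] at h1
  have h3 := folded_sub hD hε k
  calc (D k : ℝ) * nint ((D k : ℝ) * folded D ε)
      ≤ (D k : ℝ) * ((D k : ℝ) * (2 / (D k : ℝ) ^ 2)) := by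
        gcongr
        exact h1.trans (by gcongr)
    _ = 2 := by field_simp

/-- folded numbers are badly approximable -/
theorem folded_bad {D : ℕ → ℕ} {T : ℕ} (hD : Folding D T) {ε : ℕ → ℤ} (hε : Signs ε) :
    ∃ c : ℝ, 0 < c ∧ ∀ n : ℕ, 0 < n → c ≤ n * nint (n * folded D ε) := by
  obtain ⟨c, hc0, hc1, hc2, hc3⟩ : ∃ c : ℝ, 0 < c ∧ c ≤ 1 / 1024 ∧ 2 * c * D 0 ≤ 1 ∧
      2 * c * T ≤ 1 := by
    refine ⟨1 / (1024 + 2 * (D 0 : ℝ) + 2 * T), by positivity, ?_, ?_, ?_⟩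
    · apply one_div_le_one_div_of_le (by norm_num)
      have : (0 : ℝ) ≤ D 0 := by positivity
      have : (0 : ℝ) ≤ T := by positivity
      linarith
    · have h : (0 : ℝ) < 1024 + 2 * (D 0 : ℝ) + 2 * T := by positivity
      have : 2 * (1 / (1024 + 2 * (D 0 : ℝ) + 2 * T)) * D 0 =
          (2 * (D 0 : ℝ)) / (1024 + 2 * (D 0 : ℝ) + 2 * T) := by field_simp
      rw [this, div_le_one h]
      have : (0 : ℝ) ≤ T := by positivity
      linarith
    · have h : (0 : ℝ) < 1024 + 2 * (D 0 : ℝ) + 2 * T := by positivity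
      have : 2 * (1 / (1024 + 2 * (D 0 : ℝ) + 2 * T)) * T =
          (2 * (T : ℝ)) / (1024 + 2 * (D 0 : ℝ) + 2 * T) := by field_simp
      rw [this, div_le_one h]
      have : (0 : ℝ) ≤ D 0 := by positivity
      linarith
  refine ⟨c, hc0, fun n hn => ?_⟩
  have hn1 : (1 : ℝ) ≤ n := by exact_mod_cast hn
  set a : ℤ := round ((n : ℝ) * folded D ε) with ha
  -- the bound for the finite sums
  have hk : ∀ k, n ≤ k → c ≤ n * |(n : ℝ) * (num D ε k / (D k : ℝ)) - a| := by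
    intro k hk
    have hNum := num_Num hD hε k
    set P := num D ε k
    have hq : (0 : ℝ) < (D k : ℝ) := by exact_mod_cast hD.pos k
    have hnq : (n : ℝ) < (D k : ℝ) := by
      have h1 : n < 4 ^ k := lt_of_le_of_lt hk (Nat.lt_pow_self (by norm_num))
      have h2 : (n : ℝ) < 4 ^ k := by exact_mod_cast h1
      exact lt_of_lt_of_le h2 (hD.four_pow_le k)
    set m : ℤ := n * P - a * (D k : ℤ) with hm
    have hm0 : m ≠ 0 := by
      intro h0
      have h1 : (D k : ℤ) ∣ (n : ℤ) * P := ⟨a, by rw [hm] at h0; linarith⟩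
      have h2 : (D k : ℤ) ∣ (n : ℤ) := (hNum.coprime.symm).dvd_of_dvd_mul_right h1
      have h3 := Int.le_of_dvd (by exact_mod_cast hn) h2
      have h4 : (D k : ℝ) ≤ n := by exact_mod_cast h3
      linarith
    have hkey := key D T hD c hc0 hc1 hc2 hc3 k P hNum n m (by exact_mod_cast hn.ne') hm0
      ⟨-a, by rw [hm]; ring⟩
    unfold Low at hkey
    have hmR : (m : ℝ) = (D k : ℝ) * ((n : ℝ) * (P / (D k : ℝ)) - a) := by
      rw [hm]; push_cast; field_simp
    have h5 : c * (D k : ℝ) ≤ |((n : ℤ) : ℝ)| * |(m : ℝ)| := by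
      refine le_trans ?_ hkey
      have h6 : 0 ≤ (1 + (1 / 2 : ℝ) ^ k) / (2 * min |((n : ℤ) : ℝ)| |(m : ℝ)|) := by positivity
      have h7 : 0 < c * (D k : ℝ) := by positivity
      nlinarith
    rw [hmR, abs_mul, abs_of_pos hq] at h5
    have h8 : |((n : ℤ) : ℝ)| = n := by push_cast; exact abs_of_pos (by linarith)
    rw [h8] at h5
    have h9 : c * (D k : ℝ) ≤
        (n * |(n : ℝ) * (P / (D k : ℝ)) - a|) * (D k : ℝ) := by linarith
    exact le_of_mul_le_mul_right h9 hq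
  -- the limit
  have hlim : Filter.Tendsto (fun k => (num D ε k : ℝ) / (D k : ℝ)) Filter.atTop
      (nhds (folded D ε)) := by
    have h1 := (summable_folded hD hε).hasSum.tendsto_sum_nat
    have h2 := h1.comp (Filter.tendsto_add_atTop_nat 1)
    refine h2.congr (fun k => ?_)
    simp only [Function.comp]
    exact sum_eq hD ε k
  have hlim2 : Filter.Tendsto (fun k => (n : ℝ) *
      |(n : ℝ) * ((num D ε k : ℝ) / (D k : ℝ)) - a|) Filter.atTop
      (nhds (n * |(n : ℝ) * folded D ε - a|)) := by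
    exact (((hlim.const_mul (n : ℝ)).sub_const (a : ℝ)).abs).const_mul (n : ℝ)
  exact ge_of_tendsto hlim2 (Filter.eventually_atTop.2 ⟨n, hk⟩)

theorem repulsion (x y : ℝ) (h : Counterexample x y) (A : ℝ) (hA : 0 < A) :
    ∃ c : ℝ, 0 < c ∧ ∃ N : ℕ, ∀ q : ℕ, N ≤ q → q * nint (q * x) ≤ A →
      ∀ u : ℕ, 0 < u → c ≤ (u : ℝ) ^ 2 * nint (u * (q * y)) := by
  obtain ⟨c, hc, N, hN⟩ := h
  refine ⟨c / A, by positivity, N, fun q hq hqA u hu => ?_⟩
  have h1 := hN (u * q) (hq.trans (Nat.le_mul_of_pos_left _ hu))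
  have h2 : nint ((u * q : ℕ) * x) ≤ u * nint (q * x) := by
    have : ((u * q : ℕ) : ℝ) * x = (u : ℕ) * ((q : ℝ) * x) := by push_cast; ring
    rw [this]; exact nint_mul_le _ _
  have h3 : ((u * q : ℕ) : ℝ) * y = u * (q * y) := by push_cast; ring
  rw [h3] at h1
  have h4 := nint_nonneg (u * (q * y))
  rw [div_le_iff₀ hA]
  calc c ≤ ((u * q : ℕ) : ℝ) * nint ((u * q : ℕ) * x) * nint (u * (q * y)) := h1
    _ ≤ ((u * q : ℕ) : ℝ) * (u * nint (q * x)) * nint (u * (q * y)) := by gcongr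
    _ = (u : ℝ) ^ 2 * nint (u * (q * y)) * (q * nint (q * x)) := by push_cast; ring
    _ ≤ (u : ℝ) ^ 2 * nint (u * (q * y)) * A := by gcongr

theorem Folding.exists_scale {D : ℕ → ℕ} {T : ℕ} (hD : Folding D T) (Z : ℝ) (hZ : (D 0 : ℝ) < Z) :
    ∃ k, Z ≤ D k ∧ (D k : ℝ) ≤ T * Z ^ 2 := by
  have hex : ∃ k, Z ≤ (D k : ℝ) := by
    obtain ⟨k, hk⟩ := pow_unbounded_of_one_lt Z (by norm_num : (1 : ℝ) < 4)
    exact ⟨k, hk.le.trans (hD.four_pow_le k)⟩
  classical
  set k := Nat.find hex with hk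
  have hk1 : Z ≤ (D k : ℝ) := Nat.find_spec hex
  have hk0 : k ≠ 0 := by
    intro h0
    rw [h0] at hk1
    linarith
  obtain ⟨j, hj⟩ := Nat.exists_eq_succ_of_ne_zero hk0
  have hj2 : (D j : ℝ) < Z := by
    have := Nat.find_min hex (m := j) (by omega)
    exact not_le.1 this
  refine ⟨k, hk1, ?_⟩
  obtain ⟨t, _, htT, hDt⟩ := hD.step j
  have h1 : (D k : ℝ) = t * (D j : ℝ) ^ 2 := by rw [hj]; exact_mod_cast hDt
  have h2 : (t : ℝ) ≤ T := by exact_mod_cast htT
  rw [h1]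
  gcongr

theorem folded_chain (E : ℕ → ℕ) (hE : ∀ i, 0 < E i) (hdvd : ∀ i, E i ∣ E (i + 1))
    {D : ℕ → ℕ} {T : ℕ} (hD : Folding D T) (hDE : ∀ k, ∃ i, D k = E i) {ε : ℕ → ℤ} (hε : Signs ε)
    (A y : ℝ) (hy : ∀ Z : ℝ, ∃ i, Z ≤ E i ∧ E i * nint (E i * y) ≤ A) (κ : ℝ)
    (hκ : κ < Real.sqrt 2) (N : ℕ) :
    ∃ n : ℕ, N ≤ n ∧ 0 < n ∧ nint (n * folded D ε) * nint (n * y) ≤ (n : ℝ) ^ (-κ) := by
  -- choose `C > 2` with `2 / √C > κ`
  obtain ⟨C, hC2, hCκ⟩ : ∃ C : ℝ, 2 < C ∧ κ < 2 / Real.sqrt C := by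
    have hcont : ContinuousAt (fun C : ℝ => 2 / Real.sqrt C) 2 := by
      apply ContinuousAt.div continuousAt_const Real.continuous_sqrt.continuousAt
      positivity
    have h2 : κ < 2 / Real.sqrt 2 := by
      have : 2 / Real.sqrt 2 = Real.sqrt 2 := by
        rw [div_eq_iff (by positivity)]
        exact (Real.mul_self_sqrt (by norm_num)).symm
      rw [this]; exact hκ
    have h3 := hcont.eventually (lt_mem_nhds h2)
    have h4 := (h3.filter_mono (nhdsWithin_le_nhds (s := Set.Ioi 2))).and self_mem_nhdsWithin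
    obtain ⟨C, hC, hC'⟩ := h4.exists
    exact ⟨C, hC', hC⟩
  set B : ℝ := max A 2 with hB
  have hB0 : 0 < B := lt_of_lt_of_le (by norm_num) (le_max_right _ _)
  have hx : ∃ Z₀ : ℝ, ∀ Z : ℝ, Z₀ ≤ Z → ∃ i, Z ≤ E i ∧ (E i : ℝ) ≤ Z ^ C ∧
      E i * nint (E i * folded D ε) ≤ B := by
    have hlim : Filter.Tendsto (fun Z : ℝ => Z ^ (C - 2)) Filter.atTop Filter.atTop :=
      tendsto_rpow_atTop (by linarith)
    obtain ⟨Z₁, hZ₁⟩ := Filter.eventually_atTop.1 (hlim.eventually_ge_atTop (T : ℝ))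
    refine ⟨max Z₁ (D 0 + 1), fun Z hZ => ?_⟩
    have hZ0 : (D 0 : ℝ) < Z := by
      have : (D 0 : ℝ) + 1 ≤ Z := (le_max_right _ _).trans hZ
      linarith
    have hZpos : 0 < Z := by
      have : (0 : ℝ) ≤ D 0 := by positivity
      linarith
    obtain ⟨k, hk1, hk2⟩ := hD.exists_scale Z hZ0
    obtain ⟨i, hi⟩ := hDE k
    refine ⟨i, by rw [← hi]; exact hk1, ?_, ?_⟩
    · rw [← hi]
      calc (D k : ℝ) ≤ T * Z ^ 2 := hk2
        _ ≤ Z ^ (C - 2) * Z ^ 2 := by
            gcongr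
            exact hZ₁ Z ((le_max_left _ _).trans hZ)
        _ = Z ^ C := by
            rw [← Real.rpow_natCast Z 2, ← Real.rpow_add hZpos]
            congr 1
            push_cast
            ring
    · rw [← hi]
      exact (nint_folded hD hε k).trans (le_max_right _ _)
  have hy' : ∀ Z : ℝ, ∃ i, Z ≤ E i ∧ E i * nint (E i * y) ≤ B := by
    intro Z
    obtain ⟨i, h1, h2⟩ := hy Z
    exact ⟨i, h1, h2.trans (le_max_left _ _)⟩
  -- for large `n` the constant is absorbed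
  have hlim2 : Filter.Tendsto (fun n : ℕ => (n : ℝ) ^ (2 / Real.sqrt C - κ)) Filter.atTop
      Filter.atTop := (tendsto_rpow_atTop (by linarith)).comp tendsto_natCast_atTop_atTop
  obtain ⟨N₁, hN₁⟩ := Filter.eventually_atTop.1 (hlim2.eventually_ge_atTop (B ^ 2))
  obtain ⟨n, hn1, hn0, hn2⟩ := chain_bound E hE hdvd B C (by linarith) (folded D ε) y hx hy'
    (max N N₁)
  refine ⟨n, (le_max_left _ _).trans hn1, hn0, hn2.trans ?_⟩
  have hnpos : (0 : ℝ) < n := by exact_mod_cast hn0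
  have h5 := hN₁ n ((le_max_right _ _).trans hn1)
  calc B ^ 2 * (n : ℝ) ^ (-(2 / Real.sqrt C))
      ≤ (n : ℝ) ^ (2 / Real.sqrt C - κ) * (n : ℝ) ^ (-(2 / Real.sqrt C)) := by gcongr
    _ = (n : ℝ) ^ (-κ) := by
        rw [← Real.rpow_add hnpos]
        congr 1
        ring

/-- a number with sparse digits in base `b` -/
noncomputable def sparse (b : ℕ) (d : ℕ → ℤ) (w : ℕ → ℕ) : ℝ := ∑' j, (d j : ℝ) / (b : ℝ) ^ w j

theorem nint_sparse (b : ℕ) (hb : 2 ≤ b) (d : ℕ → ℤ) (K : ℝ) (hd : ∀ j, |(d j : ℝ)| ≤ K)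
    (w : ℕ → ℕ) (hw : StrictMono w) (j m : ℕ) (hm : ∀ i, i < j → w i ≤ m) :
    nint ((b : ℝ) ^ m * sparse b d w) ≤ (b : ℝ) ^ m * (2 * K / (b : ℝ) ^ w j) := by
  have hb' : (2 : ℝ) ≤ b := by exact_mod_cast hb
  have hb0 : (0 : ℝ) < b := by linarith
  have hK : 0 ≤ K := (abs_nonneg _).trans (hd 0)
  have hterm : ∀ j i : ℕ, ‖(d (i + j) : ℝ) / (b : ℝ) ^ w (i + j)‖ ≤
      (K / (b : ℝ) ^ w j) * (1 / 2) ^ i := by
    intro j i
    rw [Real.norm_eq_abs, abs_div, abs_of_pos (by positivity : (0 : ℝ) < (b : ℝ) ^ w (i + j))]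
    have h1 : w j + i ≤ w (i + j) := by
      induction i with
      | zero => simp
      | succ i ih =>
          have : w (i + j) < w (i + 1 + j) := hw (by omega)
          omega
    have h2 : (b : ℝ) ^ w j * 2 ^ i ≤ (b : ℝ) ^ w (i + j) := by
      calc (b : ℝ) ^ w j * 2 ^ i ≤ (b : ℝ) ^ w j * (b : ℝ) ^ i := by gcongr
        _ = (b : ℝ) ^ (w j + i) := by rw [pow_add]
        _ ≤ (b : ℝ) ^ w (i + j) := pow_le_pow_right₀ (by linarith) h1
    calc |(d (i + j) : ℝ)| / (b : ℝ) ^ w (i + j) ≤ K / ((b : ℝ) ^ w j * 2 ^ i) := by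
          gcongr
          exact hd _
      _ = (K / (b : ℝ) ^ w j) * (1 / 2) ^ i := by
          rw [one_div, inv_pow]; field_simp
  have hs : Summable (fun i => (d i : ℝ) / (b : ℝ) ^ w i) :=
    Summable.of_norm_bounded (geo_sum (K / (b : ℝ) ^ w 0)).summable (fun i => hterm 0 i)
  -- the integer part
  obtain ⟨a, ha⟩ : ∃ a : ℤ, (a : ℝ) = (b : ℝ) ^ m * ∑ i ∈ Finset.range j,
      (d i : ℝ) / (b : ℝ) ^ w i := by
    refine ⟨∑ i ∈ Finset.range j, d i * (b : ℤ) ^ (m - w i), ?_⟩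
    push_cast
    rw [Finset.mul_sum]
    refine Finset.sum_congr rfl (fun i hi => ?_)
    have h1 := hm i (Finset.mem_range.1 hi)
    have h2 : (b : ℝ) ^ m = (b : ℝ) ^ (m - w i) * (b : ℝ) ^ w i := by
      rw [← pow_add, Nat.sub_add_cancel h1]
    rw [h2]
    field_simp
  have h3 := nint_le ((b : ℝ) ^ m * sparse b d w) a
  refine h3.trans ?_
  have h4 : (b : ℝ) ^ m * sparse b d w - a =
      (b : ℝ) ^ m * ∑' i, (d (i + j) : ℝ) / (b : ℝ) ^ w (i + j) := by
    rw [ha, ← mul_sub]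
    congr 1
    have := hs.sum_add_tsum_nat_add j
    unfold sparse
    linarith
  rw [h4, abs_mul, abs_of_pos (by positivity : (0 : ℝ) < (b : ℝ) ^ m), ← Real.norm_eq_abs]
  gcongr
  refine (tsum_of_norm_bounded (geo_sum (K / (b : ℝ) ^ w j)) (fun i => hterm j i)).trans
    (le_of_eq ?_)
  ring

theorem sparse_littlewood (b : ℕ) (hb : 2 ≤ b) (A x : ℝ)
    (hx : ∀ M : ℕ, ∃ m, M ≤ m ∧ (b : ℝ) ^ m * nint ((b : ℝ) ^ m * x) ≤ A)
    (d : ℕ → ℤ) (K : ℝ) (hd : ∀ j, |(d j : ℝ)| ≤ K) (w : ℕ → ℕ) (hw : StrictMono w)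
    (hgap : Filter.Tendsto (fun j => w (j + 1) - w j) Filter.atTop Filter.atTop)
    (δ : ℝ) (hδ : 0 < δ) (N : ℕ) :
    ∃ n : ℕ, N ≤ n ∧ 0 < n ∧ n * nint (n * x) * nint (n * sparse b d w) < δ := by
  have hb' : (2 : ℝ) ≤ b := by exact_mod_cast hb
  have hb0 : (0 : ℝ) < b := by linarith
  have hK : 0 ≤ K := (abs_nonneg _).trans (hd 0)
  have hA : 0 ≤ A := by
    obtain ⟨m, _, hm⟩ := hx 0
    exact le_trans (mul_nonneg (by positivity) (nint_nonneg _)) hm
  have hsmall : ∀ F : ℝ, ∃ L : ℕ, F / (b : ℝ) ^ L < δ := by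
    intro F
    obtain ⟨L, hL⟩ := pow_unbounded_of_one_lt (F / δ) (by linarith : (1 : ℝ) < b)
    refine ⟨L, ?_⟩
    rw [div_lt_iff₀ hδ] at hL
    rw [div_lt_iff₀ (by positivity)]
    linarith
  obtain ⟨L, hL⟩ := hsmall (A * (2 * K))
  obtain ⟨G, hG⟩ := hsmall ((b : ℝ) ^ (2 * L) * (A * (2 * K)))
  obtain ⟨J, hJ⟩ := Filter.eventually_atTop.1 (hgap.eventually_ge_atTop G)
  obtain ⟨m, hm1, hm2⟩ := hx (max N (w J + 1))
  have hNb : ∀ e : ℕ, N ≤ e → N ≤ b ^ e := fun e he =>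
    he.trans (Nat.lt_pow_self (by omega)).le
  classical
  have hex : ∃ j, m ≤ w j := ⟨m, hw.id_le m⟩
  set j := Nat.find hex with hj
  have hj1 : m ≤ w j := Nat.find_spec hex
  have hj2 : ∀ i, i < j → w i ≤ m := fun i hi => (not_le.1 (Nat.find_min hex hi)).le
  have hNm : N ≤ m := (le_max_left _ _).trans hm1
  have hwJ : w J + 1 ≤ m := (le_max_right _ _).trans hm1
  have hJj : J ≤ j := by
    have : w J < w j := by omega
    exact (hw.lt_iff_lt.1 this).le
  obtain ⟨l, hl⟩ := Nat.exists_eq_add_of_le hj1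
  rcases le_or_gt L l with hcase | hcase
  · refine ⟨b ^ m, hNb m hNm, by positivity, ?_⟩
    have h1 := nint_sparse b hb d K hd w hw j m hj2
    push_cast
    have h2 : (b : ℝ) ^ m * (2 * K / (b : ℝ) ^ w j) ≤ 2 * K / (b : ℝ) ^ L := by
      have : (b : ℝ) ^ w j = (b : ℝ) ^ m * (b : ℝ) ^ l := by rw [hl, pow_add]
      rw [this]
      have h3 : (b : ℝ) ^ m * (2 * K / ((b : ℝ) ^ m * (b : ℝ) ^ l)) = 2 * K / (b : ℝ) ^ l := by
        field_simp
      rw [h3]
      have : (b : ℝ) ^ L ≤ (b : ℝ) ^ l := pow_le_pow_right₀ (by linarith) hcase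
      gcongr
    calc (b : ℝ) ^ m * nint ((b : ℝ) ^ m * x) * nint ((b : ℝ) ^ m * sparse b d w)
        ≤ A * (2 * K / (b : ℝ) ^ L) := mul_le_mul hm2 (h1.trans h2) (nint_nonneg _) hA
      _ = A * (2 * K) / (b : ℝ) ^ L := by ring
      _ < δ := hL
  · refine ⟨b ^ w j, hNb _ (hNm.trans hj1), by positivity, ?_⟩
    have h1 := nint_sparse b hb d K hd w hw (j + 1) (w j)
      (fun i hi => hw.monotone (Nat.lt_succ_iff.1 hi))
    have h2 : (b : ℝ) ^ w j * (2 * K / (b : ℝ) ^ w (j + 1)) ≤ 2 * K / (b : ℝ) ^ G := by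
      have h3 : w j + (w (j + 1) - w j) = w (j + 1) := by
        have : w j < w (j + 1) := hw (Nat.lt_succ_self j)
        omega
      have h4 : (b : ℝ) ^ w (j + 1) = (b : ℝ) ^ w j * (b : ℝ) ^ (w (j + 1) - w j) := by
        rw [← pow_add, h3]
      rw [h4]
      have h5 : (b : ℝ) ^ w j * (2 * K / ((b : ℝ) ^ w j * (b : ℝ) ^ (w (j + 1) - w j))) =
          2 * K / (b : ℝ) ^ (w (j + 1) - w j) := by field_simp
      rw [h5]
      have h6 : (b : ℝ) ^ G ≤ (b : ℝ) ^ (w (j + 1) - w j) :=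
        pow_le_pow_right₀ (by linarith) (hJ j hJj)
      gcongr
    have h7 : nint ((b : ℝ) ^ w j * x) ≤ (b : ℝ) ^ l * nint ((b : ℝ) ^ m * x) := by
      have : (b : ℝ) ^ w j * x = ((b ^ l : ℕ) : ℝ) * ((b : ℝ) ^ m * x) := by
        rw [hl, pow_add]; push_cast; ring
      rw [this]
      have := nint_mul_le (b ^ l) ((b : ℝ) ^ m * x)
      push_cast at this ⊢
      exact this
    push_cast
    have h8 : (b : ℝ) ^ w j * nint ((b : ℝ) ^ w j * x) ≤ (b : ℝ) ^ (2 * L) * A := by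
      calc (b : ℝ) ^ w j * nint ((b : ℝ) ^ w j * x)
          ≤ (b : ℝ) ^ w j * ((b : ℝ) ^ l * nint ((b : ℝ) ^ m * x)) := by gcongr
        _ = (b : ℝ) ^ (2 * l) * ((b : ℝ) ^ m * nint ((b : ℝ) ^ m * x)) := by
            rw [hl, pow_add, two_mul, pow_add]; ring
        _ ≤ (b : ℝ) ^ (2 * L) * A := by
            have : (b : ℝ) ^ (2 * l) ≤ (b : ℝ) ^ (2 * L) :=
              pow_le_pow_right₀ (by linarith) (by omega)
            exact mul_le_mul this hm2 (mul_nonneg (by positivity) (nint_nonneg _)) (by positivity)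
    calc (b : ℝ) ^ w j * nint ((b : ℝ) ^ w j * x) * nint ((b : ℝ) ^ w j * sparse b d w)
        ≤ ((b : ℝ) ^ (2 * L) * A) * (2 * K / (b : ℝ) ^ G) :=
          mul_le_mul h8 (h1.trans h2) (nint_nonneg _) (by positivity)
      _ = (b : ℝ) ^ (2 * L) * (A * (2 * K)) / (b : ℝ) ^ G := by ring
      _ < δ := hG

/-- the number with the (bounded, integral) digits `d 0, d 1, …` in base `b` -/
noncomputable def digits (b : ℕ) (d : ℕ → ℤ) : ℝ := ∑' i, (d i : ℝ) / (b : ℝ) ^ (i + 1)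

theorem digit_term (b : ℕ) (hb : 2 ≤ b) (e : ℕ → ℤ) (K : ℝ) (he : ∀ j, |(e j : ℝ)| ≤ K) (I i : ℕ) :
    ‖(e (i + I) : ℝ) / (b : ℝ) ^ (i + I + 1)‖ ≤ (K / (b : ℝ) ^ (I + 1)) * (1 / 2) ^ i := by
  have hb' : (2 : ℝ) ≤ b := by exact_mod_cast hb
  have hb0 : (0 : ℝ) < b := by linarith
  have hK : 0 ≤ K := (abs_nonneg _).trans (he 0)
  rw [Real.norm_eq_abs, abs_div, abs_of_pos (by positivity : (0 : ℝ) < (b : ℝ) ^ (i + I + 1))]
  have h2 : (b : ℝ) ^ (I + 1) * 2 ^ i ≤ (b : ℝ) ^ (i + I + 1) := by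
    calc (b : ℝ) ^ (I + 1) * 2 ^ i ≤ (b : ℝ) ^ (I + 1) * (b : ℝ) ^ i := by gcongr
      _ = (b : ℝ) ^ (i + I + 1) := by rw [← pow_add]; congr 1; ring
  calc |(e (i + I) : ℝ)| / (b : ℝ) ^ (i + I + 1) ≤ K / ((b : ℝ) ^ (I + 1) * 2 ^ i) := by
        gcongr
        exact he _
    _ = (K / (b : ℝ) ^ (I + 1)) * (1 / 2) ^ i := by
        rw [one_div, inv_pow]; field_simp

theorem digit_summable (b : ℕ) (hb : 2 ≤ b) (e : ℕ → ℤ) (K : ℝ) (he : ∀ j, |(e j : ℝ)| ≤ K) :
    Summable (fun i => (e i : ℝ) / (b : ℝ) ^ (i + 1)) :=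
  Summable.of_norm_bounded (geo_sum (K / (b : ℝ) ^ (0 + 1))).summable
    (fun i => digit_term b hb e K he 0 i)

theorem tail_bound (b : ℕ) (hb : 2 ≤ b) (e : ℕ → ℤ) (K : ℝ) (he : ∀ j, |(e j : ℝ)| ≤ K) (I : ℕ)
    (h0 : ∀ i, i < I → e i = 0) : |digits b e| ≤ K / (b : ℝ) ^ I := by
  have hb' : (2 : ℝ) ≤ b := by exact_mod_cast hb
  have hb0 : (0 : ℝ) < b := by linarith
  have hK : 0 ≤ K := (abs_nonneg _).trans (he 0)
  have hs := digit_summable b hb e K he
  have h1 : digits b e = ∑' i, (e (i + I) : ℝ) / (b : ℝ) ^ (i + I + 1) := by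
    have h2 := hs.sum_add_tsum_nat_add I
    have h3 : ∑ i ∈ Finset.range I, (e i : ℝ) / (b : ℝ) ^ (i + 1) = 0 := by
      refine Finset.sum_eq_zero (fun i hi => ?_)
      rw [h0 i (Finset.mem_range.1 hi)]
      simp
    rw [h3, zero_add] at h2
    unfold digits
    exact h2.symm
  rw [h1, ← Real.norm_eq_abs]
  refine (tsum_of_norm_bounded (geo_sum (K / (b : ℝ) ^ (I + 1)))
    (fun i => digit_term b hb e K he I i)).trans ?_
  rw [pow_succ, div_mul_eq_mul_div, div_le_div_iff₀ (by positivity) (by positivity)]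
  have : 0 ≤ K * (b : ℝ) ^ I := by positivity
  nlinarith

theorem digit_shift (b : ℕ) (hb : 2 ≤ b) (d : ℕ → ℤ) (K : ℝ) (hd : ∀ j, |(d j : ℝ)| ≤ K) (M : ℕ) :
    ∃ a : ℤ, (b : ℝ) ^ M * digits b d = a + digits b (fun i => d (i + M)) := by
  have hb' : (2 : ℝ) ≤ b := by exact_mod_cast hb
  have hb0 : (0 : ℝ) < b := by linarith
  have hs := digit_summable b hb d K hd
  refine ⟨∑ i ∈ Finset.range M, d i * (b : ℤ) ^ (M - (i + 1)), ?_⟩
  have h1 := hs.sum_add_tsum_nat_add M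
  have h2 : digits b d = ∑ i ∈ Finset.range M, (d i : ℝ) / (b : ℝ) ^ (i + 1) +
      ∑' i, (d (i + M) : ℝ) / (b : ℝ) ^ (i + M + 1) := by
    unfold digits
    exact h1.symm
  rw [h2, mul_add, Finset.mul_sum]
  congr 1
  · push_cast
    refine Finset.sum_congr rfl (fun i hi => ?_)
    have h3 := Finset.mem_range.1 hi
    have h4 : (b : ℝ) ^ M = (b : ℝ) ^ (M - (i + 1)) * (b : ℝ) ^ (i + 1) := by
      rw [← pow_add, Nat.sub_add_cancel h3]
    rw [h4]
    field_simp
  · unfold digits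
    rw [← tsum_mul_left]
    refine tsum_congr (fun i => ?_)
    have h4 : (b : ℝ) ^ (i + M + 1) = (b : ℝ) ^ M * (b : ℝ) ^ (i + 1) := by
      rw [← pow_add]; congr 1; ring
    rw [h4]
    field_simp

/-- Littlewood's conjecture for `x` with good denominators `b ^ m` and `y` whose digits after the
position `m` are (a short word and then) a long periodic word. -/
theorem periodic_littlewood (b : ℕ) (hb : 2 ≤ b) (A x : ℝ) (d : ℕ → ℤ) (K : ℝ)
    (hd : ∀ j, |(d j : ℝ)| ≤ K)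
    (H : ∀ h N : ℕ, ∃ m s g : ℕ, N ≤ m ∧ 1 ≤ s ∧ s ≤ b ^ g ∧
      (s * b ^ m : ℕ) * nint ((s * b ^ m : ℕ) * x) ≤ A ∧ ∃ l p : ℕ, 1 ≤ p ∧
      ∀ i, m + l ≤ i → i + p < m + 3 * l + 3 * p + (h + g) → d (i + p) = d i)
    (δ : ℝ) (hδ : 0 < δ) (N : ℕ) :
    ∃ n : ℕ, N ≤ n ∧ 0 < n ∧ n * nint (n * x) * nint (n * digits b d) < δ := by
  have hb' : (2 : ℝ) ≤ b := by exact_mod_cast hb
  have hb0 : (0 : ℝ) < b := by linarith
  have hK : 0 ≤ K := (abs_nonneg _).trans (hd 0)
  obtain ⟨h, hh⟩ : ∃ h : ℕ, A * (2 * K) / (b : ℝ) ^ h < δ := by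
    obtain ⟨L, hL⟩ := pow_unbounded_of_one_lt (A * (2 * K) / δ) (by linarith : (1 : ℝ) < b)
    refine ⟨L, ?_⟩
    rw [div_lt_iff₀ hδ] at hL
    rw [div_lt_iff₀ (by positivity)]
    linarith
  obtain ⟨m, s, g, hm1, hs1, hsg, hm2, l, p, hp, hper⟩ := H h N
  have hA : 0 ≤ A := le_trans (mul_nonneg (by positivity) (nint_nonneg _)) hm2
  have hsgR : (s : ℝ) ≤ (b : ℝ) ^ g := by exact_mod_cast hsg
  have hs0 : (0 : ℝ) < s := by exact_mod_cast hs1
  have hbp : b ≤ b ^ p := Nat.le_self_pow (by omega) b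
  set v : ℕ := b ^ p - 1 with hv
  have hv1 : 1 ≤ v := by omega
  have hvR : (v : ℝ) = (b : ℝ) ^ p - 1 := by
    rw [hv, Nat.cast_sub (by omega)]
    push_cast
    ring
  have hvp : (v : ℝ) ≤ (b : ℝ) ^ p := by rw [hvR]; linarith
  refine ⟨(s * b ^ m) * (b ^ l * v), ?_, by positivity, ?_⟩
  · have h1 : N ≤ b ^ m := hm1.trans (Nat.lt_pow_self (by omega)).le
    have h2 : 1 ≤ b ^ l * v := Nat.mul_pos (by positivity) hv1
    calc N ≤ (1 * b ^ m) * 1 := by omega
      _ ≤ (s * b ^ m) * (b ^ l * v) := by gcongr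
  -- the distance for `x`
  have hx1 : nint ((((s * b ^ m) * (b ^ l * v) : ℕ) : ℝ) * x) ≤
      (b : ℝ) ^ (l + p) * nint ((s * b ^ m : ℕ) * x) := by
    have h1 : (((s * b ^ m) * (b ^ l * v) : ℕ) : ℝ) * x =
        ((b ^ l * v : ℕ) : ℝ) * ((s * b ^ m : ℕ) * x) := by
      push_cast; ring
    rw [h1]
    refine (nint_mul_le _ _).trans ?_
    have h2 : ((b ^ l * v : ℕ) : ℝ) ≤ (b : ℝ) ^ (l + p) := by
      rw [pow_add]; push_cast; gcongr
    exact mul_le_mul_of_nonneg_right h2 (nint_nonneg _)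
  have hn1 : (((s * b ^ m) * (b ^ l * v) : ℕ) : ℝ) ≤
      ((s * b ^ m : ℕ) : ℝ) * (b : ℝ) ^ (l + p) := by
    rw [pow_add]; push_cast; gcongr
  have hx2 : (((s * b ^ m) * (b ^ l * v) : ℕ) : ℝ) *
      nint ((((s * b ^ m) * (b ^ l * v) : ℕ) : ℝ) * x) ≤ (b : ℝ) ^ (2 * (l + p)) * A := by
    calc _ ≤ (((s * b ^ m : ℕ) : ℝ) * (b : ℝ) ^ (l + p)) *
            ((b : ℝ) ^ (l + p) * nint ((s * b ^ m : ℕ) * x)) :=
          mul_le_mul hn1 hx1 (nint_nonneg _) (by positivity)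
      _ = (b : ℝ) ^ (2 * (l + p)) * ((s * b ^ m : ℕ) * nint ((s * b ^ m : ℕ) * x)) := by
          rw [two_mul, pow_add]; ring
      _ ≤ _ := by gcongr
  -- the distance for `y`
  have hy0 : nint (((b ^ m * (b ^ l * v) : ℕ) : ℝ) * digits b d) ≤
      2 * K / (b : ℝ) ^ (2 * (l + p) + (h + g)) := by
    obtain ⟨a, ha⟩ := digit_shift b hb d K hd (m + l + p)
    obtain ⟨a', ha'⟩ := digit_shift b hb d K hd (m + l)
    set e : ℕ → ℤ := fun i => d (i + (m + l + p)) - d (i + (m + l)) with he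
    have heK : ∀ j, |(e j : ℝ)| ≤ 2 * K := by
      intro j
      rw [he]
      push_cast
      calc |(d (j + (m + l + p)) : ℝ) - d (j + (m + l))| ≤
            |(d (j + (m + l + p)) : ℝ)| + |(d (j + (m + l)) : ℝ)| := abs_sub _ _
        _ ≤ K + K := add_le_add (hd _) (hd _)
        _ = 2 * K := by ring
    have he0 : ∀ i, i < 2 * (l + p) + (h + g) → e i = 0 := by
      intro i hi
      have h1 := hper (i + (m + l)) (by omega) (by omega)
      rw [he]
      simp only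
      have h2 : i + (m + l + p) = i + (m + l) + p := by ring
      rw [h2, h1, sub_self]
    have hsub : digits b (fun i => d (i + (m + l + p))) - digits b (fun i => d (i + (m + l))) =
        digits b e := by
      unfold digits
      rw [← (digit_summable b hb _ K (fun j => hd _)).tsum_sub
        (digit_summable b hb _ K (fun j => hd _))]
      refine tsum_congr (fun i => ?_)
      rw [he]
      push_cast
      ring
    have h1 : ((b ^ m * (b ^ l * v) : ℕ) : ℝ) * digits b d =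
        (b : ℝ) ^ (m + l + p) * digits b d - (b : ℝ) ^ (m + l) * digits b d := by
      push_cast
      rw [hvR, pow_add, pow_add]
      ring
    have h2 := nint_le (((b ^ m * (b ^ l * v) : ℕ) : ℝ) * digits b d) (a - a')
    refine h2.trans ?_
    have h3 : ((b ^ m * (b ^ l * v) : ℕ) : ℝ) * digits b d - ((a - a' : ℤ) : ℝ) = digits b e := by
      rw [h1, ha, ha', ← hsub]
      push_cast
      ring
    rw [h3]
    exact tail_bound b hb e (2 * K) heK _ he0
  have hy1 : nint ((((s * b ^ m) * (b ^ l * v) : ℕ) : ℝ) * digits b d) ≤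
      2 * K / (b : ℝ) ^ (2 * (l + p) + h) := by
    have h1 : (((s * b ^ m) * (b ^ l * v) : ℕ) : ℝ) * digits b d =
        (s : ℕ) * (((b ^ m * (b ^ l * v) : ℕ) : ℝ) * digits b d) := by
      push_cast; ring
    rw [h1]
    refine (nint_mul_le _ _).trans ?_
    calc (s : ℝ) * nint (((b ^ m * (b ^ l * v) : ℕ) : ℝ) * digits b d)
        ≤ (b : ℝ) ^ g * (2 * K / (b : ℝ) ^ (2 * (l + p) + (h + g))) :=
          mul_le_mul hsgR hy0 (nint_nonneg _) (by positivity)
      _ = 2 * K / (b : ℝ) ^ (2 * (l + p) + h) := by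
          rw [← add_assoc, pow_add _ _ g]; field_simp
  calc _ ≤ ((b : ℝ) ^ (2 * (l + p)) * A) * (2 * K / (b : ℝ) ^ (2 * (l + p) + h)) :=
        mul_le_mul hx2 hy1 (nint_nonneg _) (by positivity)
    _ = A * (2 * K) / (b : ℝ) ^ h := by rw [pow_add]; field_simp
    _ < δ := hh

/-- the number of nonzero digits with index in `[m, 2 m)` -/
def count (d : ℕ → ℤ) (m : ℕ) : ℕ := ((Finset.Ico m (2 * m)).filter (fun i => d i ≠ 0)).card

/-- ends of the blocks used below -/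
def blockEnd (h : ℕ) : ℕ → ℕ
  | 0 => 0
  | r + 1 => 3 * blockEnd h r + 3 + h

theorem blockEnd_le (h : ℕ) : ∀ r, blockEnd h r + (3 + h) ≤ (3 + h) * 3 ^ r
  | 0 => by simp [blockEnd]
  | r + 1 => by
      have ih := blockEnd_le h r
      simp only [blockEnd]
      calc 3 * blockEnd h r + 3 + h + (3 + h) ≤ 3 * (blockEnd h r + (3 + h)) := by omega
        _ ≤ 3 * ((3 + h) * 3 ^ r) := Nat.mul_le_mul_left _ ih
        _ = (3 + h) * 3 ^ (r + 1) := by ring

theorem zero_block (d : ℕ → ℤ) (m h : ℕ) (hm : (3 + h) * 3 ^ (count d m + 1) ≤ m) :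
    ∃ l, ∀ i, m + l ≤ i → i < m + 3 * l + 3 + h → d i = 0 := by
  by_contra hcon
  push Not at hcon
  -- every block contains a nonzero digit
  have hS : ∀ r, ∃ S : Finset ℕ, S.card = r ∧ ∀ i ∈ S, m ≤ i ∧ i < m + blockEnd h r ∧ d i ≠ 0 := by
    intro r
    induction r with
    | zero => exact ⟨∅, rfl, by simp⟩
    | succ r ih =>
        obtain ⟨S, hS1, hS2⟩ := ih
        obtain ⟨i, hi1, hi2, hi3⟩ := hcon (blockEnd h r)
        refine ⟨insert i S, ?_, ?_⟩
        · rw [Finset.card_insert_of_notMem, hS1]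
          intro hiS
          have := (hS2 i hiS).2.1
          omega
        · intro j hj
          rw [Finset.mem_insert] at hj
          simp only [blockEnd]
          rcases hj with rfl | hj
          · exact ⟨by omega, by omega, hi3⟩
          · have := hS2 j hj
            exact ⟨this.1, by omega, this.2.2⟩
  obtain ⟨S, hS1, hS2⟩ := hS (count d m + 1)
  have hb := blockEnd_le h (count d m + 1)
  have hsub : S ⊆ (Finset.Ico m (2 * m)).filter (fun i => d i ≠ 0) := by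
    intro i hi
    have := hS2 i hi
    rw [Finset.mem_filter, Finset.mem_Ico]
    exact ⟨⟨this.1, by omega⟩, this.2.2⟩
  have := Finset.card_le_card hsub
  rw [hS1] at this
  unfold count at this
  omega

/-- `y` has a representation in base `b` with bounded integral digits, of which only
`o (log m)` with index in `[m, 2 m)` are nonzero -/
def FewDigits (b : ℕ) (y : ℝ) : Prop :=
  ∃ (d : ℕ → ℤ) (K : ℝ), (∀ j, |(d j : ℝ)| ≤ K) ∧ y = digits b d ∧
    Tendsto (fun m : ℕ => (count d m : ℝ) / Real.log m) atTop (𝓝 0)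

theorem FewDigits.add {b : ℕ} (hb : 2 ≤ b) {y z : ℝ} (hy : FewDigits b y) (hz : FewDigits b z) :
    FewDigits b (y + z) := by
  obtain ⟨d, K, hd, hyd, hlim⟩ := hy
  obtain ⟨e, L, he, hze, hlim'⟩ := hz
  refine ⟨fun i => d i + e i, K + L, ?_, ?_, ?_⟩
  · intro j
    push_cast
    exact (abs_add_le _ _).trans (add_le_add (hd j) (he j))
  · rw [hyd, hze]
    unfold digits
    rw [← (digit_summable b hb d K hd).tsum_add (digit_summable b hb e L he)]
    refine tsum_congr (fun i => ?_)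
    push_cast
    ring
  · have h0 := hlim.add hlim'
    rw [add_zero] at h0
    refine squeeze_zero' ?_ ?_ h0
    · filter_upwards [eventually_ge_atTop 1] with m hm
      have : 0 ≤ Real.log m := Real.log_natCast_nonneg m
      positivity
    · filter_upwards [eventually_ge_atTop 1] with m hm
      have hlog : 0 ≤ Real.log m := Real.log_natCast_nonneg m
      rw [← add_div]
      apply div_le_div_of_nonneg_right _ hlog
      have h1 : count (fun i => d i + e i) m ≤ count d m + count e m := by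
        unfold count
        refine (Finset.card_le_card ?_).trans (Finset.card_union_le _ _)
        intro i hi
        rw [Finset.mem_filter] at hi
        rw [Finset.mem_union, Finset.mem_filter, Finset.mem_filter]
        by_cases hdi : d i = 0
        · right
          refine ⟨hi.1, fun h => hi.2 ?_⟩
          simp only [hdi, h, add_zero]
        · left
          exact ⟨hi.1, hdi⟩
      exact_mod_cast h1

theorem FewDigits.neg {b : ℕ} {y : ℝ} (hy : FewDigits b y) : FewDigits b (-y) := by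
  obtain ⟨d, K, hd, hyd, hlim⟩ := hy
  refine ⟨fun i => - d i, K, ?_, ?_, ?_⟩
  · intro j
    push_cast
    rw [abs_neg]
    exact hd j
  · rw [hyd]
    unfold digits
    rw [← tsum_neg]
    refine tsum_congr (fun i => ?_)
    push_cast
    ring
  · refine hlim.congr (fun m => ?_)
    congr 2
    unfold count
    congr 1
    refine Finset.filter_congr (fun i _ => ?_)
    simp

theorem few_littlewood (b : ℕ) (hb : 2 ≤ b) (A x : ℝ)
    (hx : ∀ M : ℕ, ∃ m s g : ℕ, M ≤ m ∧ 1 ≤ s ∧ s ≤ b ^ g ∧ g ^ 2 ≤ m ∧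
      (s * b ^ m : ℕ) * nint ((s * b ^ m : ℕ) * x) ≤ A)
    (y : ℝ) (hy : FewDigits b y) (δ : ℝ) (hδ : 0 < δ) (N : ℕ) :
    ∃ n : ℕ, N ≤ n ∧ 0 < n ∧ n * nint (n * x) * nint (n * y) < δ := by
  obtain ⟨d, K, hd, rfl, hlim⟩ := hy
  refine periodic_littlewood b hb A x d K hd ?_ δ hδ N
  intro h N
  -- `(3 + (h + g)) * 3 ^ (count d m + 1) ≤ m` for large `m`
  have hlarge : ∀ᶠ m : ℕ in atTop, ∀ g : ℕ, g ^ 2 ≤ m →
      (3 + (h + g)) * 3 ^ (count d m + 1) ≤ m := by
    have h3 : 0 < Real.log 3 := Real.log_pos (by norm_num)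
    have h1 : ∀ᶠ m : ℕ in atTop, (count d m : ℝ) / Real.log m < 1 / (4 * Real.log 3) :=
      hlim.eventually (gt_mem_nhds (by positivity))
    have h2 : Tendsto (fun m : ℕ => Real.log m) atTop atTop :=
      Real.tendsto_log_atTop.comp tendsto_natCast_atTop_atTop
    have h4 := h2.eventually_ge_atTop (4 * Real.log 6)
    have h5 := h2.eventually_gt_atTop 0
    filter_upwards [h1, h4, h5, eventually_ge_atTop (max 1 ((3 + h) ^ 2))] with m hm1 hm2 hm3 hm4
    intro g hg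
    have hm1' : 1 ≤ m := (le_max_left _ _).trans hm4
    have hm4' : (3 + h) ^ 2 ≤ m := (le_max_right _ _).trans hm4
    have hm0 : (0 : ℝ) < m := by exact_mod_cast hm1'
    have hsq : (0 : ℝ) < Real.sqrt m := Real.sqrt_pos.2 hm0
    have hg' : (g : ℝ) ≤ Real.sqrt m := by
      apply Real.le_sqrt_of_sq_le
      exact_mod_cast hg
    have hh' : ((3 + h : ℕ) : ℝ) ≤ Real.sqrt m := by
      apply Real.le_sqrt_of_sq_le
      exact_mod_cast hm4'
    rw [div_lt_div_iff₀ hm3 (by positivity)] at hm1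
    have h6 : (count d m : ℝ) * Real.log 3 ≤ Real.log m / 4 := by linarith
    have h7 : Real.log ((Real.sqrt m * 6) * 3 ^ (count d m)) ≤ Real.log m := by
      rw [Real.log_mul (by positivity) (by positivity), Real.log_mul (by positivity) (by norm_num),
        Real.log_pow, Real.log_sqrt hm0.le]
      linarith
    have h8 : (Real.sqrt m * 6) * 3 ^ (count d m) ≤ (m : ℝ) :=
      (Real.log_le_log_iff (by positivity) hm0).1 h7
    have h10 : (3 : ℝ) + (h + g) ≤ Real.sqrt m * 2 := by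
      push_cast at hh'
      linarith
    have h9 : (((3 + (h + g)) * 3 ^ (count d m + 1) : ℕ) : ℝ) ≤ m := by
      push_cast
      calc ((3 : ℝ) + (h + g)) * 3 ^ (count d m + 1)
          ≤ (Real.sqrt m * 2) * 3 ^ (count d m + 1) := by gcongr
        _ = (Real.sqrt m * 6) * 3 ^ (count d m) := by rw [pow_succ]; ring
        _ ≤ m := h8
    exact_mod_cast h9
  obtain ⟨M₀, hM₀⟩ := eventually_atTop.1 hlarge
  obtain ⟨m, s, g, hm1, hs1, hsg, hgm, hm2⟩ := hx (max N M₀)
  obtain ⟨l, hl⟩ := zero_block d m (h + g) (hM₀ m ((le_max_right _ _).trans hm1) g hgm)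
  refine ⟨m, s, g, (le_max_left _ _).trans hm1, hs1, hsg, hm2, l, 1, le_rfl,
    fun i hi1 hi2 => ?_⟩
  rw [hl i hi1 (by omega), hl (i + 1) (by omega) (by omega)]

open Classical in
/-- the digits of `∑ c j / b ^ w j` -/
noncomputable def toDigits (w : ℕ → ℕ) (c : ℕ → ℤ) (i : ℕ) : ℤ :=
  if h : ∃ j, w j = i + 1 then c h.choose else 0

theorem toDigits_eq {w : ℕ → ℕ} (hw : StrictMono w) (c : ℕ → ℤ) {i j : ℕ} (h : w j = i + 1) :
    toDigits w c i = c j := by
  have hex : ∃ j, w j = i + 1 := ⟨j, h⟩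
  unfold toDigits
  rw [dif_pos hex]
  congr 1
  exact hw.injective (hex.choose_spec.trans h.symm)

theorem toDigits_zero {w : ℕ → ℕ} (c : ℕ → ℤ) {i : ℕ} (h : ¬ ∃ j, w j = i + 1) :
    toDigits w c i = 0 := by
  unfold toDigits
  rw [dif_neg h]

theorem digits_toDigits (b : ℕ) {w : ℕ → ℕ} (hw : StrictMono w) (hw0 : 1 ≤ w 0) (c : ℕ → ℤ) :
    digits b (toDigits w c) = sparse b c w := by
  have hpos : ∀ j, 1 ≤ w j := fun j => hw0.trans (hw.monotone (Nat.zero_le j))
  have hinj : Function.Injective (fun j => w j - 1) := by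
    intro j k hjk
    have h1 := hpos j
    have h2 := hpos k
    simp only at hjk
    exact hw.injective (by omega)
  have h := hinj.tsum_eq (f := fun i => (toDigits w c i : ℝ) / (b : ℝ) ^ (i + 1)) (by
    intro i hi
    rw [Function.mem_support] at hi
    by_contra hcon
    apply hi
    have : ¬ ∃ j, w j = i + 1 := by
      rintro ⟨j, hj⟩
      exact hcon ⟨j, by simp only; omega⟩
    rw [toDigits_zero c this]
    simp)
  unfold digits sparse
  rw [← h]
  refine tsum_congr (fun j => ?_)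
  have h1 := hpos j
  rw [toDigits_eq hw c (j := j) (by omega), Nat.sub_add_cancel h1]

theorem FewDigits.lacunary (b : ℕ) {w : ℕ → ℕ} (hw : StrictMono w) (hw0 : 1 ≤ w 0)
    (c : ℕ → ℤ) (K : ℝ) (hc : ∀ j, |(c j : ℝ)| ≤ K) (θ : ℝ) (hθ : 1 < θ)
    (hlac : ∀ j, θ * w j ≤ w (j + 1)) : FewDigits b (sparse b c w) := by
  have hK : 0 ≤ K := (abs_nonneg _).trans (hc 0)
  refine ⟨toDigits w c, K, ?_, (digits_toDigits b hw hw0 c).symm, ?_⟩
  · intro i
    by_cases h : ∃ j, w j = i + 1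
    · obtain ⟨j, hj⟩ := h
      rw [toDigits_eq hw c hj]
      exact hc j
    · rw [toDigits_zero c h]
      simpa using hK
  obtain ⟨R, hR⟩ := pow_unbounded_of_one_lt 2 hθ
  have hpow : ∀ j r, θ ^ r * w j ≤ w (j + r) := by
    intro j r
    induction r with
    | zero => simp
    | succ r ih =>
        calc θ ^ (r + 1) * w j = θ * (θ ^ r * w j) := by ring
          _ ≤ θ * w (j + r) := by gcongr
          _ ≤ w (j + r + 1) := hlac _
  have hcount : ∀ m, count (toDigits w c) m ≤ R := by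
    intro m
    unfold count
    set S := (Finset.Ico m (2 * m)).filter (fun i => toDigits w c i ≠ 0) with hS
    rcases S.eq_empty_or_nonempty with h | h
    · rw [h]; simp
    · have hmem : ∀ i ∈ S, m ≤ i ∧ i < 2 * m ∧ ∃ j, w j = i + 1 := by
        intro i hi
        rw [hS, Finset.mem_filter, Finset.mem_Ico] at hi
        refine ⟨hi.1.1, hi.1.2, ?_⟩
        by_contra hcon
        exact hi.2 (toDigits_zero c hcon)
      obtain ⟨i₀, hi₀, hmin⟩ := S.exists_min_image id h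
      obtain ⟨hm0, _, j₀, hj₀⟩ := hmem i₀ hi₀
      have hsub : S ⊆ (Finset.Ico j₀ (j₀ + R)).image (fun j => w j - 1) := by
        intro i hi
        obtain ⟨_, hm2, j, hj⟩ := hmem i hi
        have hle : i₀ ≤ i := hmin i hi
        rw [Finset.mem_image]
        refine ⟨j, ?_, by omega⟩
        rw [Finset.mem_Ico]
        constructor
        · exact hw.le_iff_le.1 (by omega)
        · by_contra hcon
          push Not at hcon
          have h1 := hpow j₀ R
          have h2 : w (j₀ + R) ≤ w j := hw.monotone hcon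
          have h3 : w j ≤ 2 * w j₀ := by omega
          have h4 : (w (j₀ + R) : ℝ) ≤ 2 * w j₀ := by exact_mod_cast h2.trans h3
          have h5 : (0 : ℝ) < w j₀ := by rw [hj₀]; positivity
          nlinarith
      calc S.card ≤ _ := Finset.card_le_card hsub
        _ ≤ (Finset.Ico j₀ (j₀ + R)).card := Finset.card_image_le
        _ = R := by simp
  have h2 : Tendsto (fun m : ℕ => Real.log m) atTop atTop :=
    Real.tendsto_log_atTop.comp tendsto_natCast_atTop_atTop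
  have h3 : Tendsto (fun m : ℕ => (R : ℝ) / Real.log m) atTop (𝓝 0) :=
    tendsto_const_nhds.div_atTop h2
  refine squeeze_zero' ?_ ?_ h3
  · filter_upwards [eventually_ge_atTop 1] with m hm
    have : 0 ≤ Real.log m := Real.log_natCast_nonneg m
    positivity
  · filter_upwards [eventually_ge_atTop 1] with m hm
    apply div_le_div_of_nonneg_right _ (Real.log_natCast_nonneg m)
    exact_mod_cast hcount m

theorem folded_powers (b : ℕ) (hb : 2 ≤ b) {D : ℕ → ℕ} {T : ℕ} (hD : Folding D T) (u : ℕ → ℕ)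
    (hu : ∀ k, D k = b ^ u k) {ε : ℕ → ℤ} (hε : Signs ε) (M : ℕ) :
    ∃ m, M ≤ m ∧ (b : ℝ) ^ m * nint ((b : ℝ) ^ m * folded D ε) ≤ 2 := by
  have hlt : ∀ k, 2 ^ k ≤ u k := by
    intro k
    induction k with
    | zero =>
        rw [pow_zero]
        by_contra hcon
        have h0 : u 0 = 0 := by omega
        have := hD.two_le
        rw [hu 0, h0] at this
        simp at this
    | succ k ih =>
        obtain ⟨t, ht, _, hDt⟩ := hD.step k
        have h1 : b ^ (u k * 2) ≤ b ^ u (k + 1) := by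
          rw [← hu (k + 1), hDt, pow_mul, ← hu k]
          exact Nat.le_mul_of_pos_left _ ht
        have h2 : u k * 2 ≤ u (k + 1) := (Nat.pow_le_pow_iff_right (by omega)).1 h1
        rw [pow_succ]
        omega
  refine ⟨u M, ?_, ?_⟩
  · exact (Nat.lt_two_pow_self).le.trans (hlt M)
  · have h := nint_folded hD hε M
    rw [hu M] at h
    push_cast at h
    exact h

theorem folded_few (b : ℕ) (hb : 2 ≤ b) {D : ℕ → ℕ} {T : ℕ} (hD : Folding D T) (u : ℕ → ℕ)
    (hu : ∀ k, D k = b ^ u k) {ε : ℕ → ℤ} (hε : Signs ε) : FewDigits b (folded D ε) := by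
  have h2 : ∀ k, u k * 2 ≤ u (k + 1) := by
    intro k
    obtain ⟨t, ht, _, hDt⟩ := hD.step k
    have h1 : b ^ (u k * 2) ≤ b ^ u (k + 1) := by
      rw [← hu (k + 1), hDt, pow_mul, ← hu k]
      exact Nat.le_mul_of_pos_left _ ht
    exact (Nat.pow_le_pow_iff_right (by omega)).1 h1
  have h0 : 1 ≤ u 0 := by
    by_contra hcon
    have h0 : u 0 = 0 := by omega
    have := hD.two_le
    rw [hu 0, h0] at this
    simp at this
  have hpos : ∀ k, 1 ≤ u k := by
    intro k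
    induction k with
    | zero => exact h0
    | succ k ih => have := h2 k; omega
  have hmono : StrictMono u := strictMono_nat_of_lt_succ (fun k => by
    have := h2 k
    have := hpos k
    omega)
  have heq : folded D ε = sparse b ε u := by
    unfold folded sparse
    refine tsum_congr (fun k => ?_)
    rw [hu k]
    push_cast
    rfl
  rw [heq]
  refine FewDigits.lacunary b hmono h0 ε 1 ?_ 2 (by norm_num) ?_
  · intro j
    rcases hε j with h | h <;> rw [h] <;> simp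
  · intro j
    have := h2 j
    have h3 : ((u j * 2 : ℕ) : ℝ) ≤ u (j + 1) := by exact_mod_cast this
    push_cast at h3
    linarith

/-- Littlewood's conjecture for the pair `(x, y)` -/
def Littlewood (x y : ℝ) : Prop :=
  ∀ δ : ℝ, 0 < δ → ∀ N : ℕ, ∃ n : ℕ, N ≤ n ∧ 0 < n ∧ n * nint (n * x) * nint (n * y) < δ

/-- `x` is badly approximable -/
def Bad (x : ℝ) : Prop := ∃ c : ℝ, 0 < c ∧ ∀ n : ℕ, 0 < n → c ≤ n * nint (n * x)

/-- `x` has infinitely many good denominators `s * b ^ m` with `s ≤ b ^ √m` -/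
def NearPowers (b : ℕ) (x : ℝ) : Prop :=
  ∃ A : ℝ, ∀ M : ℕ, ∃ m s g : ℕ, M ≤ m ∧ 1 ≤ s ∧ s ≤ b ^ g ∧ g ^ 2 ≤ m ∧
    (s * b ^ m : ℕ) * nint ((s * b ^ m : ℕ) * x) ≤ A

/-- `x` has infinitely many good denominators `b ^ m` -/
def Powers (b : ℕ) (x : ℝ) : Prop :=
  ∃ A : ℝ, ∀ M : ℕ, ∃ m, M ≤ m ∧ (b : ℝ) ^ m * nint ((b : ℝ) ^ m * x) ≤ A

/-- `E` is a divisibility chain of positive integers -/
def Chain (E : ℕ → ℕ) : Prop := (∀ i, 0 < E i) ∧ ∀ i, E i ∣ E (i + 1)

theorem Powers.near {b : ℕ} {x : ℝ} (h : Powers b x) : NearPowers b x := by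
  obtain ⟨A, h⟩ := h
  refine ⟨A, fun M => ?_⟩
  obtain ⟨m, hm, hA⟩ := h M
  refine ⟨m, 1, 0, hm, le_rfl, by simp, by simp, ?_⟩
  simpa using hA

theorem result :
    -- common factors of good denominators of a counterexample
    (∀ x y : ℝ, Counterexample x y → ∀ A : ℝ, ∃ K : ℝ, ∀ q r : ℕ, 0 < q → 0 < r →
      q * nint (q * x) ≤ A → r * nint (r * y) ≤ A → (Nat.gcd q r : ℝ) ^ 3 ≤ K * (q * r)) ∧
    -- folded numbers are badly approximable
    (∀ (D : ℕ → ℕ) (T : ℕ) (ε : ℕ → ℤ), Folding D T → Signs ε → Bad (folded D ε)) ∧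
    -- folded numbers against numbers with good denominators in the same divisibility chain
    (∀ (E D : ℕ → ℕ) (T : ℕ) (ε : ℕ → ℤ), Chain E → Folding D T → (∀ k, ∃ i, D k = E i) →
      Signs ε → ∀ A y : ℝ, (∀ Z : ℝ, ∃ i, Z ≤ E i ∧ E i * nint (E i * y) ≤ A) →
      ∀ κ : ℝ, κ < Real.sqrt 2 → ∀ N : ℕ, ∃ n : ℕ, N ≤ n ∧ 0 < n ∧
        nint (n * folded D ε) * nint (n * y) ≤ (n : ℝ) ^ (-κ)) ∧
    (∀ (E D D' : ℕ → ℕ) (T : ℕ) (ε ε' : ℕ → ℤ), Chain E → Folding D T → Folding D' T →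
      (∀ k, ∃ i, D k = E i) → (∀ k, ∃ i, D' k = E i) → Signs ε → Signs ε' →
      ∀ κ : ℝ, κ < Real.sqrt 2 → ∀ N : ℕ, ∃ n : ℕ, N ≤ n ∧ 0 < n ∧
        nint (n * folded D ε) * nint (n * folded D' ε') ≤ (n : ℝ) ^ (-κ)) ∧
    -- numbers with few digits
    (∀ b : ℕ, 2 ≤ b →
      (∀ x y : ℝ, NearPowers b x → FewDigits b y → Littlewood x y) ∧
      (∀ y z : ℝ, FewDigits b y → FewDigits b z → FewDigits b (y + z)) ∧
      (∀ y : ℝ, FewDigits b y → FewDigits b (-y)) ∧
      (∀ (w : ℕ → ℕ) (c : ℕ → ℤ) (K θ : ℝ), StrictMono w → 1 ≤ w 0 → (∀ j, |(c j : ℝ)| ≤ K) →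
        1 < θ → (∀ j, θ * w j ≤ w (j + 1)) → FewDigits b (∑' j, (c j : ℝ) / (b : ℝ) ^ w j)) ∧
      (∀ (D : ℕ → ℕ) (T : ℕ) (u : ℕ → ℕ) (ε : ℕ → ℤ), Folding D T → (∀ k, D k = b ^ u k) →
        Signs ε → Powers b (folded D ε) ∧ NearPowers b (folded D ε) ∧
          FewDigits b (folded D ε)) ∧
      -- numbers with gaps between the nonzero digits which tend to infinity
      (∀ (x : ℝ) (c : ℕ → ℤ) (K : ℝ) (w : ℕ → ℕ), Powers b x → (∀ j, |(c j : ℝ)| ≤ K) →
        StrictMono w → Tendsto (fun j => w (j + 1) - w j) atTop atTop →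
        Littlewood x (∑' j, (c j : ℝ) / (b : ℝ) ^ w j))) := by
  refine ⟨gcd_law, fun D T ε hD hε => folded_bad hD hε, ?_, ?_, ?_⟩
  · intro E D T ε hE hD hDE hε A y hy κ hκ N
    exact folded_chain E hE.1 hE.2 hD hDE hε A y hy κ hκ N
  · intro E D D' T ε ε' hE hD hD' hDE hDE' hε hε' κ hκ N
    refine folded_chain E hE.1 hE.2 hD hDE hε 2 (folded D' ε') ?_ κ hκ N
    intro Z
    obtain ⟨k, hk⟩ := pow_unbounded_of_one_lt Z (by norm_num : (1 : ℝ) < 4)
    obtain ⟨i, hi⟩ := hDE' k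
    refine ⟨i, ?_, ?_⟩
    · rw [← hi]; exact hk.le.trans (hD'.four_pow_le k)
    · rw [← hi]; exact nint_folded hD' hε' k
  · intro b hb
    refine ⟨?_, fun y z hy hz => hy.add hb hz, fun y hy => hy.neg, ?_, ?_, ?_⟩
    · rintro x y ⟨A, hx⟩ hy δ hδ N
      exact few_littlewood b hb A x hx y hy δ hδ N
    · intro w c K θ hw hw0 hc hθ hlac
      exact FewDigits.lacunary b hw hw0 c K hc θ hθ hlac
    · intro D T u ε hD hu hε
      have h1 : Powers b (folded D ε) := ⟨2, folded_powers b hb hD u hu hε⟩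
      exact ⟨h1, h1.near, folded_few b hb hD u hu hε⟩
    · rintro x c K w ⟨A, hx⟩ hc hw hgap δ hδ N
      exact sparse_littlewood b hb A x hx c K hc w hw hgap δ hδ N

end Pool.Agent.Results.MP_0ea415_nt.FoldedNumbers
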