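import Pool.Agent.Helper478_Lit.QE

/-!
# Littlewood's inequality with the rate `(log q) ^ (2 - ε)`

Let `‖x‖` be the distance of `x` to the nearest integer. For Lebesgue almost all pairs `(α, β)` one
has `liminf q (log q) ^ 2 ‖q α‖ ‖q β‖ = 0`, and the exponent `2` is best possible. Here the exponent `2 - ε` is
reached for every badly approximable number `α` (the numbers for which Littlewood's conjecture is
a question at all) and almost all members of a countable family `β_n = n ^ θ g (n ^ (-s))`, `g` analytic at `0`,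
`t ^ θ g (t ^ (-s))` not a polynomial; for instance `β_n = √n`, `√(2 n ^ 2 + 1)`, `x n ^ θ`, `π / n`, `e ^ (1 / n)`:
for almost all `n` in every short interval `(N, N + N ^ ρ]`, for all `T` between `N ^ C` and
`exp ((log N) ^ (1 + γ))` there is an integer `q` in `[T, T ^ 3]` with
`q (log q) ^ (2 - ε) ‖q α‖ ‖q β_n - z_q‖ ≤ 1`, where `z_q` is any given sequence of real numbers.

Proof. For each of the about `log T` scales `X = 2 ^ k T` take a basis of the lattice of the pairs `(q, P)` adapted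
to `X`, and consider the primitive vectors `u w_1 + v w_2`, `U ≤ u, v < 2 U`, `gcd (u, v) = 1`,
`U = 2 ^ j ≤ exp ((log N) ^ (1 - η))`. They give `q` with `q ‖q α‖ ≪ U ^ 2`, and one wants `‖q β_n - z_q‖ ≤ 1 / (U ^ 2 Y)`,
`Y = (log N) ^ (2 - ε')`. The number of the solutions has the expected mean value, and its variance is estimated by
the exponential sums over `n` with frequencies `h q - h' q'`. As `α` is badly approximable these frequencies
are either large or zero, and they are zero only if `h (q, P) = h' (q', P')`, i.e. (as the vectors are primitive)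
in the diagonal case `h = h'`, `q = q'`. The exponential sums are estimated by Vinogradov's mean value theorem with
growing degree.
-/

set_option autoImplicit false

open Filter Topology

namespace Pool.Agent.Results.MP_0ea415_nt.LogSquared

/-- the distance to the nearest integer -/
noncomputable def nint (x : ℝ) : ℝ := |x - round x|

theorem result : ∀ ε : ℝ, 0 < ε → ε < 1 → ∃ γ : ℝ, 0 < γ ∧ ∀ (θ s : ℝ), 0 < s → s ≤ 1 →
    ∀ g : ℝ → ℝ, AnalyticAt ℝ g 0 →
    (¬ ∃ P : Polynomial ℝ, ∀ᶠ t : ℝ in atTop, t ^ θ * g (t ^ (-s)) = P.eval t) →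
    ∀ ρ : ℝ, 0 < ρ → ρ ≤ 1 → ∀ c : ℝ, 0 < c → ∃ (C : ℝ) (N₀ : ℕ), ∀ α : ℝ,
      (∀ q : ℕ, 1 ≤ q → c ≤ q * nint (q * α)) → ∀ (z : ℕ → ℝ) (N M : ℕ), N₀ ≤ N →
      (N : ℝ) ^ ρ ≤ M → M ≤ N →
      (({n : ℕ | N < n ∧ n ≤ N + M ∧ ¬ ∀ T : ℝ, (N : ℝ) ^ C ≤ T → T ≤ Real.exp ((Real.log N) ^ (1 + γ)) →
        ∃ q : ℕ, T ≤ q ∧ (q : ℝ) ≤ T ^ 3 ∧
          q * (Real.log q) ^ (2 - ε) * nint (q * α) *
            nint (q * ((n : ℝ) ^ θ * g ((n : ℝ) ^ (-s))) - z q) ≤ 1}.ncard : ℕ) : ℝ) ≤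
        M * (Real.log N) ^ (-γ) := by
  classical
  intro ε hε0 hε1
  obtain ⟨γ₀, hγ0, h⟩ := Pool.Agent.Helper478.Lit.Sq.sqlit (ε / 2) (by positivity) (by linarith)
  obtain ⟨γ, hγ⟩ : ∃ γ : ℝ, γ = min γ₀ (ε / 16) := ⟨_, rfl⟩
  have g0 : 0 < γ := by rw [hγ]; exact lt_min hγ0 (by positivity)
  have g1 : γ ≤ γ₀ := by rw [hγ]; exact min_le_left _ _
  have g2 : γ ≤ ε / 16 := by rw [hγ]; exact min_le_right _ _
  refine ⟨γ, g0, ?_⟩
  intro θ s hs0 hs1 g hg hpoly ρ hρ0 hρ1 c hc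
  obtain ⟨C, N₁, hC⟩ := h θ s hs0 hs1 g hg hpoly ρ hρ0 hρ1 c hc
  have ev1 : ∀ᶠ y : ℝ in atTop, 9 * y ^ (0 : ℝ) ≤ y ^ (ε / 8) :=
    Pool.Agent.Helper478.Surds.ev_pow _ _ _ (by linarith)
  have hlog : Tendsto (fun N : ℕ => Real.log N) atTop atTop :=
    Real.tendsto_log_atTop.comp tendsto_natCast_atTop_atTop
  obtain ⟨N₀, hN₀⟩ := eventually_atTop.1 ((hlog.eventually (ev1.and (eventually_ge_atTop 1))).and
    (eventually_ge_atTop (max N₁ 2)))
  refine ⟨max C 1, N₀, ?_⟩
  intro α hα z N M hN hM1 hM2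
  obtain ⟨⟨q1, q2⟩, q3⟩ := hN₀ N hN
  rw [Real.rpow_zero, mul_one] at q1
  have hN2 : 2 ≤ N := (le_max_right _ _).trans q3
  have hN0 : (0 : ℝ) < N := by exact_mod_cast (by omega : 0 < N)
  have key := hC α hα z N M ((le_max_left _ _).trans q3) hM1 hM2
  obtain ⟨y, hy⟩ : ∃ y : ℝ, y = Real.log N := ⟨_, rfl⟩
  rw [← hy] at q1 q2 key ⊢
  have hy0 : 0 < y := by linarith
  have hexp : (M : ℝ) * y ^ (-γ₀) ≤ M * y ^ (-γ) := by
    apply mul_le_mul_of_nonneg_left _ (Nat.cast_nonneg _)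
    exact Real.rpow_le_rpow_of_exponent_le q2 (by linarith)
  refine le_trans ?_ (key.trans hexp)
  rw [← Set.ncard_coe_finset]
  refine Nat.cast_le.2 (le_trans (Set.ncard_le_ncard ?_ ((Finset.finite_toSet _).image (fun n => N + n)))
    (Set.ncard_image_le (Finset.finite_toSet _)))
  rintro n ⟨a1, a2, a3⟩
  push Not at a3
  obtain ⟨T, a4, a5, a6⟩ := a3
  refine ⟨n - N, ?_, by simp only; omega⟩
  rw [Finset.mem_coe, Finset.mem_filter, Finset.mem_Ioc]
  have hT1 : 1 ≤ T := by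
    refine le_trans ?_ a4
    exact Real.one_le_rpow (by exact_mod_cast (by omega : 1 ≤ N)) (le_trans zero_le_one (le_max_right _ _))
  have hT0 : 0 < T := by linarith
  have hlT1 : max C 1 * y ≤ Real.log T := by
    rw [Real.le_log_iff_exp_le hT0]
    refine le_trans (le_of_eq ?_) a4
    rw [Real.rpow_def_of_pos hN0, ← hy, mul_comm]
  have hlT2 : Real.log T ≤ y ^ (1 + γ) := by
    rw [Real.log_le_iff_le_exp hT0]; exact a5
  refine ⟨⟨by omega, by omega⟩, T, hT1, ?_, ?_, ?_⟩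
  · refine le_trans ?_ hlT1
    exact mul_le_mul_of_nonneg_right (le_max_left _ _) hy0.le
  · refine hlT2.trans ?_
    exact Real.rpow_le_rpow_of_exponent_le q2 (by linarith)
  · intro q b1 b2
    have e1 : (N : ℝ) + ((n - N : ℕ) : ℝ) = n := by
      rw [Nat.cast_sub a1.le]; ring
    rw [e1]
    have b2' : (q : ℝ) ≤ T ^ 3 := by
      rw [← Real.rpow_natCast]
      exact_mod_cast b2
    have b3 := a6 q b1 b2'
    have hq0 : (0 : ℝ) < q := by linarith
    have hlq0 : 0 ≤ Real.log q := Real.log_nonneg (by linarith)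
    have b4 : Real.log q ≤ 3 * y ^ (1 + γ) := by
      have h1 : Real.log q ≤ Real.log (T ^ 3) := Real.log_le_log hq0 b2'
      rw [Real.log_pow] at h1
      push_cast at h1
      linarith
    have b5 : (Real.log q) ^ (2 - ε) ≤ y ^ (2 - ε / 2) := by
      calc (Real.log q) ^ (2 - ε) ≤ (3 * y ^ (1 + γ)) ^ (2 - ε) :=
            Real.rpow_le_rpow hlq0 b4 (by linarith)
        _ = 3 ^ (2 - ε) * y ^ ((1 + γ) * (2 - ε)) := by
            rw [Real.mul_rpow (by norm_num) (by positivity), ← Real.rpow_mul hy0.le]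
        _ ≤ y ^ (ε / 8) * y ^ (2 - 5 * ε / 8) := by
            apply mul_le_mul _ _ (by positivity) (by positivity)
            · refine le_trans ?_ q1
              calc (3 : ℝ) ^ (2 - ε) ≤ 3 ^ (2 : ℝ) :=
                    Real.rpow_le_rpow_of_exponent_le (by norm_num) (by linarith)
                _ = 9 := by norm_num
            · exact Real.rpow_le_rpow_of_exponent_le q2 (by nlinarith)
        _ = y ^ (2 - ε / 2) := by rw [← Real.rpow_add hy0]; congr 1; ring
    obtain ⟨P, hP⟩ : ∃ P : ℝ, P = q * nint (q * α) * nint (q * ((n : ℝ) ^ θ * g ((n : ℝ) ^ (-s))) - z q) :=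
      ⟨_, rfl⟩
    have hP0 : 0 ≤ P := by
      rw [hP]
      exact mul_nonneg (mul_nonneg hq0.le (abs_nonneg _)) (abs_nonneg _)
    have b6 : 1 < (Real.log q) ^ (2 - ε) * P := by
      rw [hP]
      refine lt_of_lt_of_le b3 (le_of_eq ?_)
      ring
    have b7 : 1 < y ^ (2 - ε / 2) * P := lt_of_lt_of_le b6 (mul_le_mul_of_nonneg_right b5 hP0)
    have b8 : y ^ (-2 + ε / 2) < P := by
      have h1 : y ^ (-2 + ε / 2) * y ^ (2 - ε / 2) = 1 := by
        rw [← Real.rpow_add hy0]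
        have : -2 + ε / 2 + (2 - ε / 2) = 0 := by ring
        rw [this, Real.rpow_zero]
      have h2 : 0 < y ^ (-2 + ε / 2) := by positivity
      calc y ^ (-2 + ε / 2) = y ^ (-2 + ε / 2) * 1 := (mul_one _).symm
        _ < y ^ (-2 + ε / 2) * (y ^ (2 - ε / 2) * P) := mul_lt_mul_of_pos_left b7 h2
        _ = P := by rw [← mul_assoc, h1, one_mul]
    rw [hP] at b8
    exact b8

end Pool.Agent.Results.MP_0ea415_nt.LogSquared
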