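import Pool.Agent.Helper553_DS.C

/-! # MP_0ea415_nt: mirror relations between the digits of an expansion in a quadratic unit

Let `ε > 1` be an irrational unit, `ε² - t ε + N = 0` with integers `t` and `N = ± 1` (every real
quadratic field is a field `ℚ(ε)`; for instance `ε` may be the golden ratio, `t = 1`, `N = -1`), and
let `β = ∑ d_k ε^{-k}` with bounded integer digits `d_k`.  Let `α = a + b ε` and
`β' = (x + y ε) β + (z + w ε)` with rational coefficients.

We show that Littlewood's conjecture holds for `(α, β')` if the digits satisfy linear relations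
`∑ c_j d (k + j) = N ^ k ∑ e_j d (s - k - j)` with integer coefficients (a relation over the group
ring of the infinite dihedral group) in arbitrarily long windows `|2 k - s| ≤ 2 L` around the centre
`s / 2`; the order `g` and the coefficients may vary and are not bounded: it is enough that
`L - 2 g` is large compared with the logarithm of the sum `M` of the absolute values of the
coefficients.  The relation may hold up to the values `v (k + 1) - t v k + N v (k - 1)` of an integer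
sequence `v` with `|v| ≤ A M`, that is, for the digits up to a change of the expansion.  If moreover
`L - 2 g` is at least a constant times `s`, then `q^{1+η} ‖qα‖ ‖qβ'‖ < 1` for some `η > 0` and
infinitely many `q`.

In particular this is so for all rational `a, b, x, y, z, w` if the digits contain arbitrarily long
mirror symmetric words, `d_i = ± N ^ i d_j + m_i` for `i + j = s`, `|i - j| ≤ 2 R`, up to a sequence
`m` with a period `ℓ` such that `R - 3 ℓ` is large.  (Palindromes: `N = 1`, `m = 0`.) -/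

set_option autoImplicit false

open Finset

namespace Pool.Agent.Results.MP_0ea415_nt.MirrorRelations

/-- Littlewood's conjecture for the pair `(α, β)` (the form of the frozen statement). -/
def Littlewood (α β : ℝ) : Prop :=
  ∀ δ : ℝ, 0 < δ → ∀ n : ℕ, ∃ q : ℕ, n ≤ q ∧ 0 < q ∧
    (q : ℝ) * |(q : ℝ) * α - (round ((q : ℝ) * α) : ℝ)|
      * |(q : ℝ) * β - (round ((q : ℝ) * β) : ℝ)| < δ

/-- `q ^ (1 + η) ‖q α‖ ‖q β‖ < 1` for some `η > 0` and arbitrarily large `q`. -/
def PowerSaving (α β : ℝ) : Prop :=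
  ∃ η : ℝ, 0 < η ∧ ∀ n : ℕ, ∃ q : ℕ, n ≤ q ∧ 0 < q ∧
    (q : ℝ) ^ (1 + η) * |(q : ℝ) * α - (round ((q : ℝ) * α) : ℝ)|
      * |(q : ℝ) * β - (round ((q : ℝ) * β) : ℝ)| < 1

/-- the sum of the absolute values of the coefficients -/
def size (c e : ℕ → ℤ) (g : ℕ) : ℕ := ∑ j ∈ range (g + 1), ((c j).natAbs + (e j).natAbs)

/-- The digits `d` satisfy the relation with coefficients `c 0, ..., c g`, `e 0, ..., e g`, not all
zero as polynomials in `ε`, for all indices `k + 1` with `|2 (k + 1) - s| ≤ 2 L`, up to the sequence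
`v`, and the window is long. -/
structure Relation (t N : ℤ) (ε κ A : ℝ) (d c e v : ℕ → ℤ) (s g L K : ℕ) : Prop where
  room : 2 * (L + g) ≤ s
  long : 2 * g + κ * s + K * (1 + Nat.log 2 (size c e g)) ≤ (L : ℝ)
  nontrivial : ∑ j ∈ range (g + 1), (c j : ℝ) * ε ^ j ≠ 0 ∨
    ∑ j ∈ range (g + 1), (e j : ℝ) * ((N : ℝ) * ε) ^ j ≠ 0
  bounded : ∀ k, |(v k : ℝ)| ≤ A * size c e g
  relation : ∀ k, s ≤ 2 * (k + 1) + 2 * L → 2 * (k + 1) ≤ s + 2 * L →
    ∑ j ∈ range (g + 1), c j * d (k + 1 + j)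
      = N ^ (k + 1) * ∑ j ∈ range (g + 1), e j * d (s - (k + 1) - j)
        + (v (k + 2) - t * v (k + 1) + N * v k)

/-- `d i = σ N ^ i (d j) + m i` for all `i, j` with `i + j = s`, `|i - j| ≤ 2 R`, where `σ = ± 1` and
`m` has the period `ℓ`, and `R` is large. -/
structure Mirror (N : ℤ) (κ : ℝ) (d m : ℕ → ℤ) (σ : ℤ) (s R ℓ K : ℕ) : Prop where
  sign : σ = 1 ∨ σ = -1
  pos : 1 ≤ ℓ
  period : ∀ i, m (i + ℓ) = m i
  room : 2 * R ≤ s
  long : 3 * ℓ + κ * s + K ≤ (R : ℝ)
  mirror : ∀ i j, i + j = s → i ≤ j + 2 * R → j ≤ i + 2 * R → d i = σ * N ^ i * d j + m i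

open Pool.Agent.Helper553.DS

lemma rel_of_relation {t N : ℤ} {ε κ A : ℝ} {d c e v : ℕ → ℤ} {s g L K : ℕ}
    (h : Relation t N ε κ A d c e v s g L K) : Rel t N ε κ A d K := by
  have hs : (∑ i : Fin (g + 1), ((c i).natAbs + (e i).natAbs)) = size c e g := by
    unfold size
    rw [Finset.sum_range]
  refine ⟨Fin (g + 1), inferInstance, fun i => c i, fun i => e i, fun i => i, v, s, g, L,
    fun i => Nat.lt_succ_iff.1 i.2, h.room, ?_, ?_, ?_, ?_⟩
  · have h1 := h.long
    rw [← hs] at h1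
    exact h1
  · have h1 := h.nontrivial
    rw [Finset.sum_range, Finset.sum_range] at h1
    exact h1
  · intro k
    have h1 := h.bounded k
    rw [← hs] at h1
    exact h1
  · intro k h2 h3
    have h1 := h.relation k h2 h3
    rw [Finset.sum_range, Finset.sum_range] at h1
    rw [h1]
    ring

lemma rel_of_mirror {t N : ℤ} {ε κ : ℝ} (hN : N = 1 ∨ N = -1) (hε : 1 < ε) {d m : ℕ → ℤ} {σ : ℤ}
    {s R ℓ K : ℕ} (hκ : 0 ≤ κ) (h : Mirror N κ d m σ s R ℓ (3 * K)) : Rel t N ε κ 0 d K := by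
  have hR : 3 * ℓ ≤ R := by
    have h1 := h.long
    have h2 : 0 ≤ κ * s := by positivity
    have h4 : (0 : ℝ) ≤ ((3 * K : ℕ) : ℝ) := Nat.cast_nonneg _
    have h3 : ((3 * ℓ : ℕ) : ℝ) ≤ R := by
      push_cast at h1 h4 ⊢
      linarith
    exact_mod_cast h3
  have hroom := h.room
  have hpos := h.pos
  have hs1 : σ.natAbs = 1 := by rcases h.sign with h | h <;> rw [h] <;> rfl
  have hN1 : N.natAbs = 1 := by rcases hN with h | h <;> rw [h] <;> rfl
  have hsum : ∑ i : Fin 2, ((![(-1 : ℤ), 1] i).natAbs + (![-σ, σ * N ^ ℓ] i).natAbs) = 4 := by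
    rw [Fin.sum_univ_two]
    simp [Int.natAbs_mul, Int.natAbs_pow, hs1, hN1]
  refine ⟨Fin 2, inferInstance, ![-1, 1], ![-σ, σ * N ^ ℓ], ![0, ℓ], fun _ => 0, s, ℓ, R - ℓ,
    ?_, by omega, ?_, ?_, ?_, ?_⟩
  · intro i
    fin_cases i <;> simp
  · have h1 := h.long
    have e2 : Nat.log 2 4 = 2 := by
      rw [show (4 : ℕ) = 2 ^ 2 by norm_num, Nat.log_pow (by norm_num)]
    rw [hsum, e2, Nat.cast_sub (by omega)]
    push_cast at h1 ⊢
    linarith
  · left
    rw [Fin.sum_univ_two]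
    have h1 : 1 < ε ^ ℓ := one_lt_pow₀ hε (by omega)
    simp only [Matrix.cons_val_zero, Matrix.cons_val_one, pow_zero]
    push_cast
    intro h0
    linarith
  · intro k
    simp
  · intro k h2 h3
    rw [Fin.sum_univ_two, Fin.sum_univ_two]
    simp only [Matrix.cons_val_zero, Matrix.cons_val_one, add_zero, Nat.sub_zero]
    have m1 := h.mirror (k + 1) (s - (k + 1)) (by omega) (by omega) (by omega)
    have m2 := h.mirror (k + 1 + ℓ) (s - (k + 1) - ℓ) (by omega) (by omega) (by omega)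
    rw [m1, m2, h.period, pow_add N (k + 1) ℓ]
    ring

theorem result (t N : ℤ) (ε : ℝ) (hN : N = 1 ∨ N = -1) (h1 : 1 < ε) (hirr : Irrational ε)
    (hq : ε ^ 2 - t * ε + N = 0) (d : ℕ → ℤ) (hd : ∃ B : ℤ, ∀ k, |d k| ≤ B) (κ A : ℝ)
    (hκ : 0 ≤ κ) (hA : 0 ≤ A) (a b x y z w : ℚ) (α β β' : ℝ) (hα : α = a + b * ε)
    (hβ : β = ∑' k : ℕ, (d k : ℝ) * ε⁻¹ ^ k) (hβ' : β' = (x + y * ε) * β + (z + w * ε)) :
    ((∀ K : ℕ, ∃ (c e v : ℕ → ℤ) (s g L : ℕ), Relation t N ε κ A d c e v s g L K) →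
      Littlewood α β' ∧ (0 < κ → PowerSaving α β')) ∧
    ((∀ K : ℕ, ∃ (m : ℕ → ℤ) (σ : ℤ) (s R ℓ : ℕ), Mirror N κ d m σ s R ℓ K) →
      Littlewood α β' ∧ (0 < κ → PowerSaving α β')) := by
  obtain ⟨B, hB⟩ := hd
  have hB' : ∀ k, |(d k : ℝ)| ≤ (B : ℝ) := fun k => by exact_mod_cast hB k
  have hb : Unt t N ε := ⟨hN, h1, hirr, hq⟩
  have htl : β = tl ε d 0 := by rw [hβ]; rfl
  have main : ∀ A : ℝ, 0 ≤ A → (∀ K : ℕ, Rel t N ε κ A d K) →
      Littlewood α β' ∧ (0 < κ → PowerSaving α β') := by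
    intro A hA hrel
    rw [hα, hβ', htl]
    constructor
    · refine lc_final hb A hA d B hB' (fun K => ?_) a b x y z w
      obtain ⟨ι, i1, c, e, p, v, s, g, L, k1, k2, k3, k4, k5, k6⟩ := hrel K
      refine ⟨ι, i1, c, e, p, v, s, g, L, k1, k2, ?_, k4, k5, k6⟩
      have : 0 ≤ κ * s := by positivity
      linarith
    · intro hκ'
      exact ps_final hb κ A hκ' hA d B hB' hrel a b x y z w
  refine ⟨fun h => main A hA fun K => ?_, fun h => main 0 le_rfl fun K => ?_⟩
  · obtain ⟨c, e, v, s, g, L, h2⟩ := h K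
    exact rel_of_relation h2
  · obtain ⟨m, σ, s, R, ℓ, h2⟩ := h (3 * K)
    exact rel_of_mirror hN h1 hκ h2

end Pool.Agent.Results.MP_0ea415_nt.MirrorRelations
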