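import Pool.Agent.H292_LU.Dir

/-!
# MP_0ea415_nt: the exceptional fibres of Littlewood's conjecture are sets of uniqueness

For given `α` (or countably many `α`, with inhomogeneous shifts and moving targets) the set of all
`β` for which Littlewood's assertion fails for some shift `δ` of `β` is a set of uniqueness for
trigonometric series, and it is a null set for every Rajchman measure.
-/

set_option autoImplicit false

open MeasureTheory Filter Topology Set

namespace Pool.Agent.Results.MP_0ea415_nt.SetsOfUniqueness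

/-- The distance to the nearest integer. -/
noncomputable def nd (x : ℝ) : ℝ := |x - round x|

/-- `liminf_{q → ∞} q ‖qα - y_q‖ ‖qβ - z_q - δ‖ = 0` for every real `δ`. -/
def Good (α : ℝ) (y z : ℕ → ℝ) (β : ℝ) : Prop :=
  ∀ δ ε : ℝ, 0 < ε → ∀ N : ℕ, ∃ q : ℕ, N ≤ q ∧ 0 < q ∧
    (q : ℝ) * nd (q * α - y q) * nd (q * β - z q - δ) < ε

/-- The partial sum `∑_{|n| ≤ N} c_n exp(2πinx)`. -/
noncomputable def psum (c : ℤ → ℂ) (N : ℕ) (x : ℝ) : ℂ :=
  ∑ n ∈ Finset.Icc (-(N : ℤ)) (N : ℤ),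
    c n * Complex.exp (2 * (Real.pi : ℂ) * Complex.I * (n : ℂ) * (x : ℂ))

/-- `X` is a set of uniqueness, in the following strong sense: `X` is a Lebesgue null set, and a
trigonometric series whose partial sums tend to zero almost everywhere and are bounded at every
point outside `X` has only zero coefficients.  (In particular, a trigonometric series that converges
to zero at every point outside `X` has only zero coefficients.) -/
def IsSetOfUniqueness (X : Set ℝ) : Prop :=
  volume X = 0 ∧ ∀ c : ℤ → ℂ, (∀ᵐ x : ℝ, Tendsto (fun N : ℕ => psum c N x) atTop (𝓝 0)) →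
    (∀ x, x ∉ X → ∃ C : ℝ, ∀ N : ℕ, ‖psum c N x‖ ≤ C) → ∀ n, c n = 0

/-- `X` is a null set for every finite Borel measure whose Fourier coefficients tend to zero. -/
def IsRajchmanNull (X : Set ℝ) : Prop :=
  ∀ μ : Measure ℝ, IsFiniteMeasure μ →
    Tendsto (fun n : ℤ => ∫ x, Complex.exp (2 * (Real.pi : ℂ) * Complex.I * (n : ℂ) * (x : ℂ)) ∂μ)
      cofinite (𝓝 0) → μ X = 0

theorem good_of_dense {u : ℕ → ℕ} (hu : Tendsto u atTop atTop) {α β C : ℝ} {y z : ℕ → ℝ}
    (hC : ∀ k, (u k : ℝ) * nd (u k * α - y (u k)) ≤ C)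
    (hβ : ∀ (n m N : ℕ), m ≤ n → ∃ k, N ≤ k ∧
      Int.fract ((u k : ℝ) * β - z (u k)) ∈ Ioo ((m:ℝ) / (n + 1)) ((m + 1 : ℝ) / (n + 1))) :
    Good α y z β := by
  intro δ ε hε N
  obtain ⟨n, hn⟩ := exists_nat_one_div_lt (show 0 < ε / (|C| + 1) by positivity)
  have hn1 : (0:ℝ) < (n:ℝ) + 1 := by positivity
  set m : ℕ := ⌊((n:ℝ) + 1) * Int.fract δ⌋₊ with hm
  have hfr0 : 0 ≤ ((n:ℝ) + 1) * Int.fract δ := mul_nonneg hn1.le (Int.fract_nonneg _)
  have hm1 : (m:ℝ) ≤ ((n:ℝ) + 1) * Int.fract δ := Nat.floor_le hfr0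
  have hm2 : ((n:ℝ) + 1) * Int.fract δ < m + 1 := Nat.lt_floor_add_one _
  have hmn : m ≤ n := by
    have h1 : (m:ℝ) < n + 1 := by
      have := Int.fract_lt_one δ
      nlinarith
    have h2 : m < n + 1 := by exact_mod_cast h1
    omega
  obtain ⟨K, hK⟩ := (tendsto_atTop_atTop.mp hu) (max N 1)
  obtain ⟨k, hk, hk2⟩ := hβ n m K hmn
  have hq := hK k hk
  refine ⟨u k, (le_max_left _ _).trans hq, lt_of_lt_of_le one_pos ((le_max_right _ _).trans hq), ?_⟩
  have h1 : nd (u k * β - z (u k) - δ) ≤ 1 / ((n:ℝ) + 1) := by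
    unfold nd
    refine (round_le _ (⌊(u k : ℝ) * β - z (u k)⌋ - ⌊δ⌋)).trans ?_
    have h2 : (u k : ℝ) * β - z (u k) - δ - ((⌊(u k : ℝ) * β - z (u k)⌋ - ⌊δ⌋ : ℤ) : ℝ) =
        Int.fract ((u k : ℝ) * β - z (u k)) - Int.fract δ := by
      rw [Int.fract, Int.fract]
      push_cast
      ring
    rw [h2]
    have h3 : (m:ℝ) / (n + 1) ≤ Int.fract δ := by
      rw [div_le_iff₀ hn1]; linarith
    have h4 : Int.fract δ ≤ (m + 1 : ℝ) / (n + 1) := by
      rw [le_div_iff₀ hn1]; linarith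
    have h5 : (m + 1 : ℝ) / (n + 1) = (m:ℝ) / (n + 1) + 1 / (n + 1) := by ring
    rw [abs_le]
    constructor <;> linarith [hk2.1, hk2.2]
  have h0 : 0 ≤ nd (u k * β - z (u k) - δ) := abs_nonneg _
  calc (u k : ℝ) * nd (u k * α - y (u k)) * nd (u k * β - z (u k) - δ) ≤
        (|C| + 1) * (1 / ((n:ℝ) + 1)) := by
        apply mul_le_mul _ h1 h0 (by positivity)
        have := hC k
        have := le_abs_self C
        linarith
    _ < (|C| + 1) * (ε / (|C| + 1)) := by
        apply mul_lt_mul_of_pos_left hn (by positivity)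
    _ = ε := by
        have : |C| + 1 ≠ 0 := by positivity
        field_simp

/-- **The exceptional fibres of Littlewood's conjecture are sets of uniqueness and Rajchman-null.**

Let `A` be a countable set of triples `(α, γ, z)` with `α, γ` real, `α` irrational or `γ = 0`, and
`z` a sequence of reals.  Let `u i`, `i = 0, 1, …` be sequences of integers tending to infinity and
`z i` sequences of reals.  Let `X` be the set of all real `β` such that one of the following holds:
* `liminf q ‖qα - γ‖ ‖qβ - z_q - δ‖ = 0` fails for some `(α, γ, z)` in `A` and some real `δ`;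
* `liminf q ‖qα - y_q‖ ‖qβ - z i q - δ‖ = 0` fails for some `i`, some real `α`, `δ` and some real
  sequence `y` for which `u i k ‖u i k α - y (u i k)‖`, `k = 0, 1, 2, …`, is bounded.

Then `X` is a set of uniqueness for trigonometric series, and a null set for every finite Borel
measure whose Fourier coefficients tend to zero. -/
theorem result (A : Set (ℝ × ℝ × (ℕ → ℝ))) (hA : A.Countable)
    (hA2 : ∀ p ∈ A, Irrational p.1 ∨ p.2.1 = 0)
    (u : ℕ → ℕ → ℕ) (hu : ∀ i, Tendsto (u i) atTop atTop) (z : ℕ → ℕ → ℝ) :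
    let X : Set ℝ := {β | ¬ ((∀ p ∈ A, Good p.1 (fun _ => p.2.1) p.2.2 β) ∧
      ∀ (i : ℕ) (α : ℝ) (y : ℕ → ℝ) (C : ℝ),
        (∀ k, (u i k : ℝ) * nd (u i k * α - y (u i k)) ≤ C) → Good α y (z i) β)}
    IsSetOfUniqueness X ∧ IsRajchmanNull X := by
  intro X
  have := hA.to_subtype
  -- the sequences of the pairs in `A`
  have hex : ∀ p : A, ∃ v : ℕ → ℕ, Tendsto v atTop atTop ∧
      ∀ k, (v k : ℝ) * nd (v k * p.1.1 - p.1.2.1) ≤ 5 := by
    intro p
    choose v hv using fun N => Pool.Agent.H292LU.dirichlet (hA2 p.1 p.2) N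
    exact ⟨v, tendsto_atTop_mono (fun k => (hv k).1) tendsto_id, fun k => (hv k).2.2⟩
  choose v hv hv5 using hex
  set w : A ⊕ ℕ → ℕ → ℕ := Sum.elim v u with hw
  set t : A ⊕ ℕ → ℕ → ℝ := Sum.elim (fun p k => p.1.2.2 (v p k)) (fun i k => z i (u i k)) with ht
  have hwt : ∀ s, Tendsto (w s) atTop atTop := by
    rintro (p | i)
    · exact hv p
    · exact hu i
  obtain ⟨hU, hR⟩ := Pool.Agent.H292LU.master w t hwt
  have hX : ∀ β, β ∈ Pool.Agent.H292LU.DD w t → β ∉ X := by
    intro β hβ hβX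
    apply hβX
    refine ⟨fun p hp => ?_, fun i α y C hC => ?_⟩
    · exact good_of_dense (hv ⟨p, hp⟩) (hv5 ⟨p, hp⟩) (hβ (Sum.inl ⟨p, hp⟩))
    · exact good_of_dense (hu i) hC (hβ (Sum.inr i))
  refine ⟨⟨?_, fun c hae hc => hU c (fun x hx => hc x (hX x hx)) hae⟩, fun μ hμf hμ => ?_⟩
  · have h1 := Pool.Agent.H292LU.ae_DD w t hwt
    rw [ae_iff] at h1
    exact measure_mono_null (fun β hβ h => hX β h hβ) h1
  · have h1 := hR μ hμf hμ
    rw [ae_iff] at h1
    exact measure_mono_null (fun β hβ h => hX β h hβ) h1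

end Pool.Agent.Results.MP_0ea415_nt.SetsOfUniqueness
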